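import Pool.Agent.Helper18_MT.NvaD
import Pool.Agent.Helper47_MT.Eva

/-! NVA: for the rational structure given by the matrix `diag ((2 π i)⁻ʲ)` and all large `n` there is a
polarised Hodge structure with the periods of the hypergeometric system. -/

set_option autoImplicit false

namespace Pool.Agent.MT100.H18

open Matrix Filter Topology

/-- the rescaling -/
noncomputable def Dy (r : ℕ) (y : ℝ) : (Fin r → ℂ) →ₗ[ℂ] (Fin r → ℂ) where
  toFun x := fun j => (y : ℂ) ^ (j : ℕ) * x j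
  map_add' x x' := by ext j; simp only [Pi.add_apply]; ring
  map_smul' c x := by ext j; simp only [Pi.smul_apply, smul_eq_mul, RingHom.id_apply]; ring

theorem Dy_apply (r : ℕ) (y : ℝ) (x : Fin r → ℂ) (j : Fin r) :
    Dy r y x j = (y : ℂ) ^ (j : ℕ) * x j := rfl

theorem Dy_star (r : ℕ) (y : ℝ) (x : Fin r → ℂ) : star (Dy r y x) = Dy r y (star x) := by
  ext j
  rw [Pi.star_apply, Dy_apply, Dy_apply, star_mul', star_pow, Pi.star_apply]
  simp

theorem Dy_bl (r : ℕ) (y : ℝ) (x z : Fin r → ℂ) :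
    bl ((J0 r).map (algebraMap ℚ ℂ)) (Dy r y x) (Dy r y z) =
      (y : ℂ) ^ (r - 1) * bl ((J0 r).map (algebraMap ℚ ℂ)) x z := by
  unfold bl dotProduct
  simp only [J0_mulVec, Dy_apply]
  rw [Finset.mul_sum]
  refine Finset.sum_congr rfl fun j _ => ?_
  have h1 : r - 1 = (j : ℕ) + (Fin.rev j : Fin r) := by
    rw [Fin.val_rev]
    have := j.2
    omega
  rw [h1, pow_add]
  ring

/-- the rescaled periods -/
noncomputable def dz (D : Dat) (c : Fin D.r) (n : ℕ) : Fin D.r → ℂ := fun j =>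
  ∑ d : Fin D.r, (Complex.I * (Real.log n : ℂ)) ^ (c : ℕ) *
    ((Complex.I * (Real.log n : ℂ)) ^ (d : ℕ))⁻¹ * ((ev (Hyp D c d) (n : ℝ)⁻¹ : ℝ) : ℂ) * fl d j

theorem dz_lim (eva : EvaStmt) (hgt : HgtStmt) (D : Dat) (c : Fin D.r) :
    Tendsto (dz D c) atTop (𝓝 fun j => fl c j) := by
  rw [tendsto_pi_nhds]
  intro j
  have h : Tendsto (fun n : ℕ => ∑ d : Fin D.r, (Complex.I * (Real.log n : ℂ)) ^ (c : ℕ) *
      ((Complex.I * (Real.log n : ℂ)) ^ (d : ℕ))⁻¹ * ((ev (Hyp D c d) (n : ℝ)⁻¹ : ℝ) : ℂ) * fl d j)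
      atTop (𝓝 (∑ d : Fin D.r, (if (c : ℕ) = d then 1 else 0) * fl d j)) := by
    refine tendsto_finsetSum _ fun d _ => ?_
    exact (log_lim _ (ev_analytic eva hgt D c d) c d (hyp_const D c d)).mul_const _
  have e : ∑ d : Fin D.r, (if (c : ℕ) = d then 1 else 0) * fl d j = fl c j := by
    rw [Finset.sum_eq_single c]
    · simp
    · intro d _ hd
      rw [if_neg (fun h => hd (Fin.ext h.symm)), zero_mul]
    · intro h'; exact absurd (Finset.mem_univ _) h'
  rw [e] at h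
  exact h

theorem per_eq (D : Dat) (κ : ℝ) (hκ : 0 < κ) (c : Fin D.r) (n : ℕ) (hn : 0 < Real.log n) :
    Dy D.r (Real.log n / κ) (dz D c n) =
      ((Complex.I * (Real.log n : ℂ)) ^ (c : ℕ)) • per D (Pd D.r κ) n c := by
  ext j
  rw [Dy_apply, dz, Pi.smul_apply, per_Pd, smul_eq_mul, W, mul_apply]
  generalize Real.log n = L at *
  push_cast
  rw [Finset.mul_sum, Finset.mul_sum, Finset.mul_sum]
  refine Finset.sum_congr rfl fun d _ => ?_
  simp only [map_apply, en, fl]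
  have hL : (L : ℂ) ≠ 0 := Complex.ofReal_ne_zero.mpr hn.ne'
  have hk : (κ : ℂ) ≠ 0 := Complex.ofReal_ne_zero.mpr hκ.ne'
  by_cases h : d ≤ j
  · have h' : (d : ℕ) ≤ j := h
    rw [if_pos h, if_pos h']
    obtain ⟨e, he⟩ := Nat.exists_eq_add_of_le h'
    have hI := Complex.I_ne_zero
    have e1 : (j : ℕ) - d = e := by omega
    rw [e1, he]
    have e2 : (((((e.factorial : ℚ))⁻¹ • (-L) ^ e : ℝ)) : ℂ) =
        ((e.factorial : ℂ))⁻¹ * (-(L : ℂ)) ^ e := by
      rw [Rat.smul_def]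
      push_cast
      ring
    rw [e2]
    have e3 : (-(L : ℂ)) ^ e = Complex.I ^ e * Complex.I ^ e * (L : ℂ) ^ e := by
      rw [← mul_pow, ← mul_pow, Complex.I_mul_I]; ring
    have hf : (e.factorial : ℂ) ≠ 0 := Nat.cast_ne_zero.mpr (Nat.factorial_ne_zero _)
    rw [e3]
    simp only [mul_pow, div_pow, pow_add]
    field_simp
  · have h' : ¬ (d : ℕ) ≤ j := h
    rw [if_neg h, if_neg h']
    simp

/-- extension of the index -/
noncomputable def dx (D : Dat) (c : ℕ) (n : ℕ) : Fin D.r → ℂ :=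
  if h : c < D.r then dz D ⟨c, h⟩ n else 0

theorem dx_lim (eva : EvaStmt) (hgt : HgtStmt) (D : Dat) (c : ℕ) (hc : c < D.r) :
    Tendsto (dx D c) atTop (𝓝 fun j => fl c j) := by
  have h : dx D c = dz D ⟨c, hc⟩ := by
    ext n : 1
    rw [dx, dif_pos hc]
  rw [h]
  exact dz_lim eva hgt D ⟨c, hc⟩

/-- the basis of the flag near the orthogonal one -/
noncomputable def vx (D : Dat) (b : ℕ) (n : ℕ) : Fin D.r → ℂ :=
  ∑ c ∈ Finset.range (b + 1), tc (D.r - 1) b c • dx D c n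

/-- its limit -/
noncomputable def vl (D : Dat) (b : ℕ) : Fin D.r → ℂ := fun j => ul (D.r - 1) b j

theorem vx_lim (eva : EvaStmt) (hgt : HgtStmt) (D : Dat) (b : ℕ) (hb : b < D.r) :
    Tendsto (vx D b) atTop (𝓝 (vl D b)) := by
  have h : Tendsto (vx D b) atTop
      (𝓝 (∑ c ∈ Finset.range (b + 1), tc (D.r - 1) b c • (fun j : Fin D.r => fl c j))) := by
    refine tendsto_finsetSum _ fun c hc => ?_
    have hc' := Finset.mem_range.mp hc
    exact (dx_lim eva hgt D c (by omega)).const_smul _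
  have e : (∑ c ∈ Finset.range (b + 1), tc (D.r - 1) b c • (fun j : Fin D.r => fl c j)) = vl D b := by
    ext j
    rw [Finset.sum_apply, vl, ul_eq _ _ _ (by omega) (by have := j.2; omega)]
    rfl
  rwa [e] at h

theorem r_eq (D : Dat) : D.r = D.r - 1 + 1 := by have := D.r_pos; omega

theorem vl_star (D : Dat) (b : ℕ) (hb : b < D.r) : star (vl D b) = vl D (D.r - 1 - b) := by
  ext j
  rw [Pi.star_apply, vl, vl]
  exact ul_star _ _ _ (by omega)

theorem vl_orth (D : Dat) (a b : ℕ) (ha : a < D.r) (hb : b < D.r) :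
    ((D.r - 1).choose a : ℂ) * bl ((J0 D.r).map (algebraMap ℚ ℂ)) (vl D a) (star (vl D b)) =
      if a = b then ((D.r - 1).factorial : ℂ) * (2 * Complex.I) ^ (D.r - 1) *
        (-1) ^ (D.r - 1 - b) else 0 := by
  rw [vl_star D b hb]
  have h1 := bl_J0 D.r (D.r - 1) (r_eq D) (ul (D.r - 1) a) (ul (D.r - 1) (D.r - 1 - b))
  have h2 := prg_ul (D.r - 1) a (D.r - 1 - b) (by omega) (by omega)
  rw [← h1] at h2
  refine h2.trans ?_
  by_cases h : a = b
  · rw [if_pos h, if_pos (by omega)]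
  · rw [if_neg h, if_neg (by omega)]

theorem choose_ne (D : Dat) (a : ℕ) (ha : a < D.r) : ((D.r - 1).choose a : ℂ) ≠ 0 :=
  Nat.cast_ne_zero.mpr (Nat.choose_pos (by omega)).ne'

/-- the norms of the orthogonal basis -/
theorem vl_norm (D : Dat) (a : ℕ) (ha : a < D.r) : ∃ t : ℝ, 0 < t ∧
    (-1) ^ a * Complex.I ^ (D.r - 1) * bl ((J0 D.r).map (algebraMap ℚ ℂ)) (vl D a) (star (vl D a)) =
      t := by
  have h := vl_orth D a a ha ha
  rw [if_pos rfl] at h
  have hc := choose_ne D a ha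
  have hpos : (0 : ℝ) < ((D.r - 1).choose a : ℝ) := Nat.cast_pos.mpr (Nat.choose_pos (by omega))
  refine ⟨((D.r - 1).factorial : ℝ) * 2 ^ (D.r - 1) / ((D.r - 1).choose a : ℝ),
    div_pos (mul_pos (Nat.cast_pos.mpr (Nat.factorial_pos _)) (by positivity)) hpos, ?_⟩
  push_cast
  rw [eq_div_iff hc]
  have e1 : (-1 : ℂ) ^ a * (-1) ^ (D.r - 1 - a) = (-1) ^ (D.r - 1) := by
    rw [← pow_add]; congr 1; omega
  calc (-1) ^ a * Complex.I ^ (D.r - 1) *
        bl ((J0 D.r).map (algebraMap ℚ ℂ)) (vl D a) (star (vl D a)) * ((D.r - 1).choose a : ℂ)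
      = (-1) ^ a * Complex.I ^ (D.r - 1) * (((D.r - 1).choose a : ℂ) *
        bl ((J0 D.r).map (algebraMap ℚ ℂ)) (vl D a) (star (vl D a))) := by ring
    _ = ((D.r - 1).factorial : ℂ) * ((-1) ^ a * (-1) ^ (D.r - 1 - a)) *
        (Complex.I ^ (D.r - 1) * (2 * Complex.I) ^ (D.r - 1)) := by rw [h]; ring
    _ = ((D.r - 1).factorial : ℂ) * ((-1) * (Complex.I * (2 * Complex.I))) ^ (D.r - 1) := by
        rw [e1, mul_pow (-1 : ℂ), mul_pow Complex.I]; ring
    _ = ((D.r - 1).factorial : ℂ) * 2 ^ (D.r - 1) := by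
        have e2 : (-1 : ℂ) * (Complex.I * (2 * Complex.I)) = 2 := by
          have := Complex.I_mul_I
          linear_combination (-2 : ℂ) * this
        rw [e2]

theorem real_of_tendsto (z : ℕ → ℂ) (t : ℝ) (ht : 0 < t) (hz : Tendsto z atTop (𝓝 (t : ℂ)))
    (hr : ∀ n, star (z n) = z n) : ∀ᶠ n in atTop, ∃ s : ℝ, 0 < s ∧ z n = s := by
  have h1 : Tendsto (fun n => (z n).re) atTop (𝓝 t) := by
    have := (Complex.continuous_re.tendsto (t : ℂ)).comp hz
    rw [Complex.ofReal_re] at this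
    exact this
  filter_upwards [h1.eventually_const_lt ht] with n hn
  exact ⟨(z n).re, hn, (Complex.conj_eq_iff_re.mp (hr n)).symm⟩

theorem main_ex (eva : EvaStmt) (hgt : HgtStmt) (ana : AnaStmt) (D : Dat) (κ : ℝ) (hκ : 0 < κ) :
    ∃ n0 : ℕ, ∀ n : ℕ, n0 ≤ n → ∃ V : ℕ → Submodule ℂ (Fin D.r → ℂ),
      PolHodge (D.r - 1) (J0 D.r) V ∧ HasPeriods D (Pd D.r κ) n V := by
  set A := (J0 D.r).map (algebraMap ℚ ℂ) with hAdef
  have hA : Aᵀ = ((-1 : ℂ) ^ (D.r - 1)) • A := J0_tr D.r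
  have hR : ∀ i j, star (A i j) = A i j := by
    intro i j
    rw [hAdef, map_apply]
    simp
  obtain ⟨u, hu⟩ := gs A ⟨_, hA⟩ hR atTop D.r (vx D) (vl D) (vx_lim eva hgt D)
    (fun a ha b hb => by
      have h := vl_orth D a b ha (hb.trans ha)
      rw [if_neg hb.ne'] at h
      exact (mul_eq_zero.mp h).resolve_left (choose_ne D a ha))
    (fun a ha h0 => by
      obtain ⟨t, ht, h⟩ := vl_norm D a ha
      rw [h0, mul_zero] at h
      exact ht.ne (by exact_mod_cast h)) D.r le_rfl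
  have hpos : ∀ᶠ n in atTop, ∀ a : Fin D.r, ∃ s : ℝ, 0 < s ∧
      (-1) ^ (a : ℕ) * Complex.I ^ (D.r - 1) * bl A (u a n) (star (u a n)) = s := by
    rw [Filter.eventually_all]
    intro a
    obtain ⟨t, ht, h⟩ := vl_norm D a a.2
    refine real_of_tendsto _ t ht ?_ ?_
    · rw [← h]
      exact (bl_tendsto A atTop _ _ _ _ (hu a a.2).1 (hu a a.2).1).const_mul _
    · intro n
      have h1 := bl_swap_star A _ hA hR (u a n) (u a n)
      rw [star_mul', star_mul', star_pow, star_pow, star_neg, star_one]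
      conv_rhs => rw [h1]
      have e : star Complex.I = -Complex.I := Complex.conj_I
      rw [e, neg_pow Complex.I]
      ring
  have hall : ∀ᶠ n in atTop, ∀ a : Fin D.r,
      u a n ∈ Submodule.span ℂ ((fun b => vx D b n) '' {b | b ≤ (a : ℕ)}) ∧
        ∀ b < (a : ℕ), bl A (u a n) (star (u b n)) = 0 := by
    rw [Filter.eventually_all]
    intro a
    exact (hu a a.2).2
  have hlog : ∀ᶠ n : ℕ in atTop, 0 < Real.log n :=
    (Real.tendsto_log_atTop.comp tendsto_natCast_atTop_atTop).eventually_gt_atTop 0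
  have hlam : ∀ᶠ n : ℕ in atTop, (D.lam : ℝ) < n :=
    tendsto_natCast_atTop_atTop.eventually_gt_atTop _
  obtain ⟨n0, hn0⟩ := Filter.eventually_atTop.mp (((hpos.and hall).and hlog).and hlam)
  refine ⟨n0, fun n hn => ?_⟩
  obtain ⟨⟨⟨h1, h2⟩, h3⟩, h4⟩ := hn0 n hn
  set y : ℝ := Real.log n / κ with hy
  have hy0 : 0 < y := div_pos h3 hκ
  have hyp : (0 : ℝ) < y ^ (D.r - 1) := by positivity
  have hbl : ∀ a b : Fin D.r, bl A (Dy D.r y (u a n)) (star (Dy D.r y (u b n))) =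
      (y : ℂ) ^ (D.r - 1) * bl A (u a n) (star (u b n)) := by
    intro a b
    rw [Dy_star, Dy_bl]
  have hpos' : ∀ a : Fin D.r, ∃ t : ℝ, 0 < t ∧ (-1) ^ (a : ℕ) * Complex.I ^ (D.r - 1) *
      bl A (Dy D.r y (u a n)) (star (Dy D.r y (u a n))) = t := by
    intro a
    obtain ⟨s, hs, hs'⟩ := h1 a
    refine ⟨y ^ (D.r - 1) * s, mul_pos hyp hs, ?_⟩
    rw [hbl]
    push_cast
    rw [← hs']
    ring
  have hmem : ∀ a : Fin D.r, Dy D.r y (u a n) ∈
      Submodule.span ℂ (per D (Pd D.r κ) n '' {b | b ≤ a}) := by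
    intro a
    have h5 : Submodule.map (Dy D.r y)
        (Submodule.span ℂ ((fun b => vx D b n) '' {b | b ≤ (a : ℕ)})) ≤
        Submodule.span ℂ (per D (Pd D.r κ) n '' {b | b ≤ a}) := by
      rw [Submodule.map_span_le]
      rintro _ ⟨b, hb, rfl⟩
      have hb' : b ≤ (a : ℕ) := hb
      show Dy D.r y (vx D b n) ∈ _
      rw [vx, map_sum]
      refine Submodule.sum_mem _ fun c hc => ?_
      have hc' := Finset.mem_range.mp hc
      have ha := a.2
      have hcr : c < D.r := by omega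
      rw [map_smul, dx, dif_pos hcr, hy, per_eq D κ hκ ⟨c, hcr⟩ n h3]
      refine Submodule.smul_mem _ _ (Submodule.smul_mem _ _ (Submodule.subset_span ?_))
      exact ⟨⟨c, hcr⟩, (by show c ≤ (a : ℕ); omega), rfl⟩
    exact h5 (Submodule.mem_map_of_mem (h2 a).1)
  have hfin := hodge_aux (r_eq D) A hA hR (per D (Pd D.r κ) n) (fun a => Dy D.r y (u a n))
    (fun a b hab => per_rel ana D κ hκ.ne' n h4 a b hab) hmem
    (fun a b hab => by rw [hbl, (h2 a).2 b hab, mul_zero])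
    (fun a h0 => by
      obtain ⟨t, ht, h⟩ := hpos' a
      rw [h0, mul_zero] at h
      exact ht.ne (by exact_mod_cast h))
    (J0 D.r) hAdef (J0_trQ D.r) hpos'
  exact ⟨_, hfin.1, hfin.2⟩

/-- NVA -/
theorem nva (hgt : HgtStmt) (ana : AnaStmt) : NvaStmt := by
  intro D
  obtain ⟨n0, h⟩ := main_ex H47.eva hgt ana D (2 * Real.pi) (by positivity)
  exact ⟨Pd D.r (2 * Real.pi), J0 D.r, n0, Pd_det _ _ (by positivity), h⟩

end Pool.Agent.MT100.H18
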