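import Pool.Agent.MT100.StmtsH

/-! NVA, part 1: a polarised Hodge structure from a flag and an orthogonal basis adapted to it. -/

set_option autoImplicit false

namespace Pool.Agent.MT100.H18

open Matrix

variable {m : Type*} [Fintype m]

/-- the bilinear form of the matrix `A` -/
noncomputable def bl (A : Matrix m m ℂ) (x y : m → ℂ) : ℂ := x ⬝ᵥ (A *ᵥ y)

theorem bl_add_left (A : Matrix m m ℂ) (x x' y : m → ℂ) : bl A (x + x') y = bl A x y + bl A x' y := by
  simp [bl, add_dotProduct]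

theorem bl_add_right (A : Matrix m m ℂ) (x y y' : m → ℂ) : bl A x (y + y') = bl A x y + bl A x y' := by
  simp [bl, mulVec_add, dotProduct_add]

theorem bl_smul_left (A : Matrix m m ℂ) (c : ℂ) (x y : m → ℂ) : bl A (c • x) y = c * bl A x y := by
  simp [bl, smul_dotProduct]

theorem bl_smul_right (A : Matrix m m ℂ) (c : ℂ) (x y : m → ℂ) : bl A x (c • y) = c * bl A x y := by
  simp [bl, mulVec_smul, dotProduct_smul]

theorem bl_zero_left (A : Matrix m m ℂ) (y : m → ℂ) : bl A 0 y = 0 := by simp [bl]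

theorem bl_zero_right (A : Matrix m m ℂ) (x : m → ℂ) : bl A x 0 = 0 := by simp [bl]

theorem bl_sum_left {σ : Type*} (s : Finset σ) (A : Matrix m m ℂ) (f : σ → m → ℂ) (y : m → ℂ) :
    bl A (∑ i ∈ s, f i) y = ∑ i ∈ s, bl A (f i) y := by
  simp [bl, sum_dotProduct]

theorem bl_sum_right {σ : Type*} (s : Finset σ) (A : Matrix m m ℂ) (x : m → ℂ) (f : σ → m → ℂ) :
    bl A x (∑ i ∈ s, f i) = ∑ i ∈ s, bl A x (f i) := by
  simp [bl, mulVec_sum, dotProduct_sum]

theorem star_bl (A : Matrix m m ℂ) (hA : ∀ i j, star (A i j) = A i j) (x y : m → ℂ) :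
    star (bl A x y) = bl A (star x) (star y) := by
  unfold bl dotProduct mulVec dotProduct
  rw [star_sum]
  refine Finset.sum_congr rfl fun i _ => ?_
  rw [star_mul', star_sum]
  refine congrArg₂ _ rfl (Finset.sum_congr rfl fun j _ => ?_)
  rw [star_mul', hA]
  rfl

theorem bl_swap (A : Matrix m m ℂ) (c : ℂ) (hA : Aᵀ = c • A) (x y : m → ℂ) :
    bl A y x = c * bl A x y := by
  unfold bl
  rw [← smul_eq_mul, ← dotProduct_smul, ← smul_mulVec, ← hA, mulVec_transpose, dotProduct_comm x,
    ← dotProduct_mulVec]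

theorem bl_swap_star (A : Matrix m m ℂ) (c : ℂ) (hA : Aᵀ = c • A)
    (hR : ∀ i j, star (A i j) = A i j) (x y : m → ℂ) :
    bl A y (star x) = c * star (bl A x (star y)) := by
  rw [star_bl A hR, star_star, ← bl_swap A c hA]

/-- the span of a set lies in the kernel of a functional -/
theorem bl_span_left (A : Matrix m m ℂ) (S : Set (m → ℂ)) (y : m → ℂ)
    (h : ∀ x ∈ S, bl A x y = 0) : ∀ x ∈ Submodule.span ℂ S, bl A x y = 0 := by
  intro x hx
  induction hx using Submodule.span_induction with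
  | mem x hx => exact h x hx
  | zero => exact bl_zero_left A y
  | add x x' _ _ h1 h2 => rw [bl_add_left, h1, h2, add_zero]
  | smul c x _ h1 => rw [bl_smul_left, h1, mul_zero]

theorem bl_span_right (A : Matrix m m ℂ) (S : Set (m → ℂ)) (x : m → ℂ)
    (h : ∀ y ∈ S, bl A x y = 0) : ∀ y ∈ Submodule.span ℂ S, bl A x y = 0 := by
  intro y hy
  induction hy using Submodule.span_induction with
  | mem y hy => exact h y hy
  | zero => exact bl_zero_right A x
  | add x x' _ _ h1 h2 => rw [bl_add_right, h1, h2, add_zero]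
  | smul c x _ h1 => rw [bl_smul_right, h1, mul_zero]

/-- orthogonal vectors with nonzero norm are linearly independent -/
theorem li_of_orth {σ : Type*} (A : Matrix m m ℂ) (u z : σ → m → ℂ)
    (ho : ∀ a b, a ≠ b → bl A (u a) (z b) = 0) (hn : ∀ a, bl A (u a) (z a) ≠ 0) :
    LinearIndependent ℂ u := by
  classical
  rw [linearIndependent_iff']
  intro s g hg i hi
  have h := congrArg (fun x => bl A x (z i)) hg
  simp only [bl_zero_left, bl_sum_left, bl_smul_left] at h
  rw [Finset.sum_eq_single i (fun j _ hj => by rw [ho j i hj, mul_zero]) (fun h' => absurd hi h')] at h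
  exact (mul_eq_zero.mp h).resolve_right (hn i)

section

variable {r w : ℕ} (hr : r = w + 1) (A : Matrix (Fin r) (Fin r) ℂ)
  (hA : Aᵀ = ((-1 : ℂ) ^ w) • A) (hR : ∀ i j, star (A i j) = A i j) (v u : Fin r → Fin r → ℂ)
  (hv : ∀ a b : Fin r, (a : ℕ) + b < w → bl A (v a) (v b) = 0)
  (hu : ∀ a, u a ∈ Submodule.span ℂ (v '' {b | b ≤ a}))
  (ho : ∀ a b, b < a → bl A (u a) (star (u b)) = 0)
  (hn : ∀ a, bl A (u a) (star (u a)) ≠ 0)

include hA hR ho in
theorem ho' (a b : Fin r) (h : a ≠ b) : bl A (u a) (star (u b)) = 0 := by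
  rcases lt_or_gt_of_ne h with h | h
  · rw [bl_swap_star A _ hA hR, ho b a h]; simp
  · exact ho a b h

include hA hR ho hn in
theorem li_u : LinearIndependent ℂ u :=
  li_of_orth A u (fun a => star (u a)) (ho' A hA hR u ho) hn

include hA hR ho hn in
theorem span_u : Submodule.span ℂ (Set.range u) = ⊤ := by
  have h := li_u A hA hR u ho hn
  exact h.span_eq_top_of_card_eq_finrank' (by simp)

include hA hR ho hn hu in
theorem span_le (a : Fin r) : Submodule.span ℂ (u '' {b | b ≤ a}) =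
    Submodule.span ℂ (v '' {b | b ≤ a}) := by
  have hle : Submodule.span ℂ (u '' {b | b ≤ a}) ≤ Submodule.span ℂ (v '' {b | b ≤ a}) := by
    rw [Submodule.span_le]
    rintro _ ⟨b, hb, rfl⟩
    refine Submodule.span_mono ?_ (hu b)
    rintro _ ⟨c, hc, rfl⟩
    have h1 : c ≤ b := hc
    have h2 : b ≤ a := hb
    exact ⟨c, show c ≤ a from h1.trans h2, rfl⟩
  apply Submodule.eq_of_le_of_finrank_le hle
  have h1 : LinearIndependent ℂ (fun b : {b : Fin r // b ≤ a} => u b) :=
    (li_u A hA hR u ho hn).comp _ Subtype.val_injective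
  have h2 := finrank_span_eq_card h1
  have e1 : Set.range (fun b : {b : Fin r // b ≤ a} => u b) = u '' {b | b ≤ a} := by
    ext x; constructor
    · rintro ⟨⟨b, hb⟩, rfl⟩; exact ⟨b, hb, rfl⟩
    · rintro ⟨b, hb, rfl⟩; exact ⟨⟨b, hb⟩, rfl⟩
  have e2 : Set.range (fun b : {b : Fin r // b ≤ a} => v b) = v '' {b | b ≤ a} := by
    ext x; constructor
    · rintro ⟨⟨b, hb⟩, rfl⟩; exact ⟨b, hb, rfl⟩
    · rintro ⟨b, hb, rfl⟩; exact ⟨⟨b, hb⟩, rfl⟩
  rw [e1] at h2
  rw [h2, ← e2]
  exact finrank_range_le_card _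

include hv hu in
theorem e_lt (a b : Fin r) (h : (a : ℕ) + b < w) : bl A (u a) (u b) = 0 := by
  refine bl_span_left A _ _ ?_ _ (hu a)
  rintro _ ⟨c, hc, rfl⟩
  refine bl_span_right A _ _ ?_ _ (hu b)
  rintro _ ⟨d, hd, rfl⟩
  apply hv
  have h1 : (c : ℕ) ≤ a := hc
  have h2 : (d : ℕ) ≤ b := hd
  omega

include hA hR ho hn in
theorem expand (x : Fin r → ℂ) :
    x = ∑ c, (bl A x (star (u c)) / bl A (u c) (star (u c))) • u c := by
  have hx : x ∈ Submodule.span ℂ (Set.range u) := by
    rw [span_u A hA hR u ho hn]; trivial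
  obtain ⟨g, hg⟩ := (Submodule.mem_span_range_iff_exists_fun ℂ).mp hx
  have h1 : ∀ c, bl A x (star (u c)) = g c * bl A (u c) (star (u c)) := by
    intro c
    rw [← hg, bl_sum_left, Finset.sum_eq_single c]
    · rw [bl_smul_left]
    · intro b _ hb
      rw [bl_smul_left, ho' A hA hR u ho b c hb, mul_zero]
    · intro h; exact absurd (Finset.mem_univ c) h
  conv_lhs => rw [← hg]
  refine Finset.sum_congr rfl fun c _ => ?_
  rw [h1, mul_div_assoc, div_self (hn c), mul_one]

/-- the coefficient of `u c` in the conjugate of `u b` -/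
noncomputable def Cc (c b : Fin r) : ℂ := star (bl A (u b) (u c)) / bl A (u c) (star (u c))

include hA hR ho hn in
theorem star_u (b : Fin r) : star (u b) = ∑ c, Cc A u c b • u c := by
  rw [expand A hA hR u ho hn (star (u b))]
  refine Finset.sum_congr rfl fun c _ => ?_
  rw [Cc, star_bl A hR]

include hr in
theorem rev_val (b : Fin r) : (Fin.rev b : ℕ) = w - b := by
  rw [Fin.val_rev]; omega

include hr hA hR ho hn hv hu in
theorem key (b : ℕ) : ∀ (hb : b < r), (∀ a : Fin r, b < a → bl A (u a) (u (Fin.rev ⟨b, hb⟩)) = 0) := by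
  induction b using Nat.strong_induction_on with
  | _ b ih =>
    intro hb
    have hex : ∀ a : Fin r, b ≤ a → bl A (u a) (star (u ⟨b, hb⟩)) =
        Cc A u (Fin.rev ⟨b, hb⟩) ⟨b, hb⟩ * bl A (u a) (u (Fin.rev ⟨b, hb⟩)) := by
      intro a ha
      conv_lhs => rw [star_u A hA hR u ho hn ⟨b, hb⟩]
      rw [bl_sum_right, Finset.sum_eq_single (Fin.rev ⟨b, hb⟩)]
      · rw [bl_smul_right]
      · intro c _ hc
        rw [bl_smul_right]
        have hcb : (c : ℕ) ≠ w - b := by
          intro h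
          apply hc
          apply Fin.ext
          rw [rev_val hr, h]
        rcases lt_or_gt_of_ne hcb with h | h
        · have : Cc A u c ⟨b, hb⟩ = 0 := by
            rw [Cc, e_lt A v u hv hu _ _ (by show b + (c : ℕ) < w; omega)]; simp
          rw [this, zero_mul]
        · have hc' := c.2
          have h1 := ih (w - c) (by omega) (by omega) a (by omega)
          have h2 : Fin.rev (⟨w - c, by omega⟩ : Fin r) = c := by
            apply Fin.ext
            rw [rev_val hr]
            show w - (w - c) = c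
            omega
          rw [h2] at h1
          rw [h1, mul_zero]
      · intro h; exact absurd (Finset.mem_univ _) h
    intro a ha
    have h1 := hex a ha.le
    have h2 := hex ⟨b, hb⟩ le_rfl
    rw [ho' A hA hR u ho a ⟨b, hb⟩ (fun h => by rw [h] at ha; exact lt_irrefl _ ha)] at h1
    have h3 : Cc A u (Fin.rev ⟨b, hb⟩) ⟨b, hb⟩ ≠ 0 := by
      intro h
      rw [h, zero_mul] at h2
      exact hn _ h2
    exact (mul_eq_zero.mp h1.symm).resolve_left h3

include hr hA hR ho hn hv hu in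
theorem e_ne (a b : Fin r) (h : (a : ℕ) + b ≠ w) : bl A (u a) (u b) = 0 := by
  rcases lt_or_gt_of_ne h with h | h
  · exact e_lt A v u hv hu a b h
  · have hb := b.2
    have h1 := key hr A hA hR v u hv hu ho hn (w - b) (by omega) a (by omega)
    have h2 : Fin.rev (⟨w - b, by omega⟩ : Fin r) = b := by
      apply Fin.ext
      rw [rev_val hr]
      show w - (w - b) = b
      omega
    rwa [h2] at h1

include hr hA hR ho hn hv hu in
theorem star_u' (b : Fin r) : star (u b) = Cc A u (Fin.rev b) b • u (Fin.rev b) := by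
  rw [star_u A hA hR u ho hn b]
  rw [Finset.sum_eq_single (Fin.rev b)]
  · intro c _ hc
    have : Cc A u c b = 0 := by
      rw [Cc, e_ne hr A hA hR v u hv hu ho hn b c]
      · simp
      · intro h
        apply hc
        apply Fin.ext
        rw [rev_val hr]
        omega
    rw [this, zero_smul]
  · intro h; exact absurd (Finset.mem_univ _) h

/-- the Hodge spaces -/
noncomputable def Vs (w : ℕ) (u : Fin r → Fin r → ℂ) (p : ℕ) : Submodule ℂ (Fin r → ℂ) :=
  Submodule.span ℂ {x | ∃ a : Fin r, (a : ℕ) + p = w ∧ x = u a}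

theorem Vs_big (w : ℕ) (u : Fin r → Fin r → ℂ) (p : ℕ) (hp : w < p) : Vs w u p = ⊥ := by
  rw [Vs, Submodule.span_eq_bot]
  rintro x ⟨a, ha, _⟩
  omega

theorem Vs_mem (w : ℕ) (u : Fin r → Fin r → ℂ) (a : Fin r) (p : ℕ) (h : (a : ℕ) + p = w) :
    Vs w u p = Submodule.span ℂ {u a} := by
  rw [Vs]
  refine congrArg _ ?_
  ext x
  constructor
  · rintro ⟨b, hb, rfl⟩
    have : b = a := Fin.ext (by omega)
    rw [this]; rfl
  · intro hx
    exact ⟨a, h, hx⟩

include hr hA hR ho hn hv hu in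
theorem hodge_aux (E : Matrix (Fin r) (Fin r) ℚ) (hE : A = E.map (algebraMap ℚ ℂ))
    (hE' : Eᵀ = ((-1 : ℚ) ^ w) • E)
    (hp : ∀ a : Fin r, ∃ t : ℝ, 0 < t ∧
      (-1) ^ (a : ℕ) * Complex.I ^ w * bl A (u a) (star (u a)) = t) :
    PolHodge w E (Vs w u) ∧ ∀ a : Fin r, (⨆ p ∈ Set.Icc (w - a) w, Vs w u p) =
      Submodule.span ℂ {y | ∃ b : Fin r, b ≤ a ∧ y = v b} := by
  have hex : ∀ p ≤ w, ∃ a : Fin r, (a : ℕ) + p = w := fun p hp =>
    ⟨⟨w - p, by omega⟩, by show w - p + p = w; omega⟩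
  refine ⟨⟨Vs_big w u, ?_, ?_, ?_, hE', ?_, ?_⟩, ?_⟩
  · rw [iSupIndep_def]
    intro p
    rcases lt_or_ge w p with hp | hp
    · rw [Vs_big w u p hp]; exact disjoint_bot_left
    · obtain ⟨a, ha⟩ := hex p hp
      rw [Vs_mem w u a p ha, Submodule.disjoint_def]
      intro x hx hx'
      obtain ⟨c, rfl⟩ := Submodule.mem_span_singleton.mp hx
      have h1 : (⨆ j, ⨆ (_ : j ≠ p), Vs w u j) ≤
          Submodule.span ℂ {x | ∃ b : Fin r, b ≠ a ∧ x = u b} := by
        refine iSup_le fun j => iSup_le fun hj => ?_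
        rw [Vs]
        refine Submodule.span_mono ?_
        rintro x ⟨b, hb, rfl⟩
        exact ⟨b, fun h => hj (by rw [h] at hb; omega), rfl⟩
      have h2 := bl_span_left A {x | ∃ b : Fin r, b ≠ a ∧ x = u b} (star (u a))
        (by rintro x ⟨b, hb, rfl⟩; exact ho' A hA hR u ho b a hb) _ (h1 hx')
      rw [bl_smul_left] at h2
      rw [(mul_eq_zero.mp h2).resolve_right (hn a), zero_smul]
  · rw [eq_top_iff, ← span_u A hA hR u ho hn, Submodule.span_le]
    rintro _ ⟨a, rfl⟩
    have ha := a.2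
    refine Submodule.mem_iSup_of_mem (w - a) ?_
    rw [Vs_mem w u a (w - a) (by omega)]
    exact Submodule.mem_span_singleton_self _
  · intro p hp x hx
    obtain ⟨a, ha⟩ := hex p hp
    rw [Vs_mem w u a p ha] at hx
    obtain ⟨c, rfl⟩ := Submodule.mem_span_singleton.mp hx
    have h2 : (Fin.rev a : ℕ) + (w - p) = w := by rw [rev_val hr]; omega
    rw [Vs_mem w u (Fin.rev a) (w - p) h2, star_smul, star_u' hr A hA hR v u hv hu ho hn a, smul_smul]
    exact Submodule.smul_mem _ _ (Submodule.mem_span_singleton_self _)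
  · intro p q hpq x hx y hy
    rw [← hE]
    show bl A x y = 0
    refine bl_span_left A _ _ ?_ _ hx
    rintro _ ⟨a, ha, rfl⟩
    refine bl_span_right A _ _ ?_ _ hy
    rintro _ ⟨b, hb, rfl⟩
    exact e_ne hr A hA hR v u hv hu ho hn a b (by omega)
  · intro p hp' x hx hx0
    obtain ⟨a, ha⟩ := hex p hp'
    rw [Vs_mem w u a p ha] at hx
    obtain ⟨c, rfl⟩ := Submodule.mem_span_singleton.mp hx
    have hc : c ≠ 0 := fun h => hx0 (by rw [h, zero_smul])
    obtain ⟨t, ht, ht'⟩ := hp a
    refine ⟨Complex.normSq c * t, mul_pos (Complex.normSq_pos.mpr hc) ht, ?_⟩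
    rw [← hE]
    show Complex.I ^ p * (-Complex.I) ^ (w - p) * bl A (c • u a) (star (c • u a)) = _
    rw [star_smul, bl_smul_left, bl_smul_right]
    push_cast
    rw [← ht', ← Complex.mul_conj]
    have e1 : w - p = a := by omega
    have e2 : Complex.I ^ p * (-Complex.I) ^ (w - p) = (-1) ^ (a : ℕ) * Complex.I ^ w := by
      rw [e1, neg_pow, ← ha, pow_add]; ring
    rw [e2]
    show _ = c * star c * _
    ring
  · intro a
    have e0 : {y | ∃ b : Fin r, b ≤ a ∧ y = v b} = v '' {b | b ≤ a} := by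
      ext y; constructor
      · rintro ⟨b, hb, rfl⟩; exact ⟨b, hb, rfl⟩
      · rintro ⟨b, hb, rfl⟩; exact ⟨b, hb, rfl⟩
    rw [e0, ← span_le A hA hR v u hu ho hn a]
    apply le_antisymm
    · refine iSup_le fun p => iSup_le fun hp => ?_
      rw [Vs]
      refine Submodule.span_mono ?_
      rintro x ⟨b, hb, rfl⟩
      exact ⟨b, (by show (b : ℕ) ≤ a; have := hp.1; have := hp.2; omega), rfl⟩
    · rw [Submodule.span_le]
      rintro _ ⟨b, hb, rfl⟩
      have hb' : (b : ℕ) ≤ a := hb
      have hb2 := b.2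
      refine Submodule.mem_iSup_of_mem (w - b) (Submodule.mem_iSup_of_mem ⟨by omega, by omega⟩ ?_)
      rw [Vs_mem w u b (w - b) (by omega)]
      exact Submodule.mem_span_singleton_self _

end

end Pool.Agent.MT100.H18
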