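import Pool.Agent.Helper18_MT.NvaA

/-! NVA, part 2: the Gram-Schmidt process near an orthogonal basis. -/

set_option autoImplicit false

namespace Pool.Agent.MT100.H18

open Matrix Filter Topology

variable {m α : Type*} [Fintype m]

theorem bl_cont (A : Matrix m m ℂ) : Continuous fun p : (m → ℂ) × (m → ℂ) => bl A p.1 (star p.2) := by
  unfold bl dotProduct mulVec dotProduct
  refine continuous_finsetSum _ fun i _ => ?_
  refine Continuous.mul ((continuous_apply i).comp continuous_fst) ?_
  refine continuous_finsetSum _ fun j _ => ?_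
  refine Continuous.mul continuous_const ?_
  exact continuous_star.comp ((continuous_apply j).comp continuous_snd)

theorem bl_tendsto (A : Matrix m m ℂ) (l : Filter α) (x y : α → m → ℂ) (x0 y0 : m → ℂ)
    (hx : Tendsto x l (𝓝 x0)) (hy : Tendsto y l (𝓝 y0)) :
    Tendsto (fun n => bl A (x n) (star (y n))) l (𝓝 (bl A x0 (star y0))) :=
  ((bl_cont A).tendsto (x0, y0)).comp (hx.prodMk_nhds hy)

/-- Gram-Schmidt -/
theorem gs (A : Matrix m m ℂ) (hA : ∃ c : ℂ, Aᵀ = c • A) (hR : ∀ i j, star (A i j) = A i j)
    (l : Filter α) (N : ℕ) (v : ℕ → α → m → ℂ) (vi : ℕ → m → ℂ)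
    (hv : ∀ a < N, Tendsto (v a) l (𝓝 (vi a)))
    (ho : ∀ a < N, ∀ b < a, bl A (vi a) (star (vi b)) = 0)
    (hn : ∀ a < N, bl A (vi a) (star (vi a)) ≠ 0) :
    ∀ k ≤ N, ∃ u : ℕ → α → m → ℂ, ∀ a < k, Tendsto (u a) l (𝓝 (vi a)) ∧
      ∀ᶠ n in l, u a n ∈ Submodule.span ℂ ((fun b => v b n) '' {b | b ≤ a}) ∧
        ∀ b < a, bl A (u a n) (star (u b n)) = 0 := by
  obtain ⟨c, hA⟩ := hA
  intro k
  induction k with
  | zero => intro _; exact ⟨fun _ _ => 0, fun a ha => absurd ha (Nat.not_lt_zero a)⟩
  | succ k ih =>
    intro hk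
    obtain ⟨u, hu⟩ := ih (Nat.le_of_succ_le hk)
    have hnk : ∀ b < k, ∀ᶠ n in l, bl A (u b n) (star (u b n)) ≠ 0 := by
      intro b hb
      exact (bl_tendsto A l (u b) (u b) _ _ (hu b hb).1 (hu b hb).1).eventually_ne
        (hn b (by omega))
    refine ⟨Function.update u k (fun n => v k n - ∑ b ∈ Finset.range k,
      (bl A (v k n) (star (u b n)) / bl A (u b n) (star (u b n))) • u b n), fun a ha => ?_⟩
    rcases Nat.lt_succ_iff_lt_or_eq.mp ha with ha | ha
    · have e : Function.update u k (fun n => v k n - ∑ b ∈ Finset.range k,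
        (bl A (v k n) (star (u b n)) / bl A (u b n) (star (u b n))) • u b n) a = u a := by
        rw [Function.update_of_ne ha.ne]
      rw [e]
      refine ⟨(hu a ha).1, ?_⟩
      filter_upwards [(hu a ha).2] with n hn'
      refine ⟨hn'.1, fun b hb => ?_⟩
      rw [Function.update_of_ne (hb.trans ha).ne]
      exact hn'.2 b hb
    · rw [ha]
      rw [Function.update_self]
      constructor
      · have h1 : Tendsto (fun n => v k n - ∑ b ∈ Finset.range k,
          (bl A (v k n) (star (u b n)) / bl A (u b n) (star (u b n))) • u b n) l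
          (𝓝 (vi k - ∑ b ∈ Finset.range k,
            (bl A (vi k) (star (vi b)) / bl A (vi b) (star (vi b))) • vi b)) := by
          refine (hv k (by omega)).sub (tendsto_finsetSum _ fun b hb => ?_)
          have hb' := Finset.mem_range.mp hb
          refine Tendsto.smul ?_ (hu b hb').1
          refine Tendsto.div (bl_tendsto A l _ _ _ _ (hv k (by omega)) (hu b hb').1)
            (bl_tendsto A l _ _ _ _ (hu b hb').1 (hu b hb').1) (hn b (by omega))
        have h2 : ∑ b ∈ Finset.range k,
            (bl A (vi k) (star (vi b)) / bl A (vi b) (star (vi b))) • vi b = 0 := by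
          refine Finset.sum_eq_zero fun b hb => ?_
          rw [ho k (by omega) b (Finset.mem_range.mp hb), zero_div, zero_smul]
        rw [h2, sub_zero] at h1
        exact h1
      · have h3 : ∀ᶠ n in l, ∀ b ∈ Finset.range k, bl A (u b n) (star (u b n)) ≠ 0 ∧
            u b n ∈ Submodule.span ℂ ((fun b => v b n) '' {d | d ≤ b}) ∧
              ∀ d < b, bl A (u b n) (star (u d n)) = 0 := by
          rw [Filter.eventually_all_finset]
          intro b hb
          have hb' := Finset.mem_range.mp hb
          exact (hnk b hb').and (hu b hb').2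
        filter_upwards [h3] with n h3n
        constructor
        · refine Submodule.sub_mem _ (Submodule.subset_span ⟨k, le_refl k, rfl⟩) ?_
          refine Submodule.sum_mem _ fun b hb => Submodule.smul_mem _ _ ?_
          refine Submodule.span_mono ?_ (h3n b hb).2.1
          rintro _ ⟨d, hd, rfl⟩
          have h4 : d ≤ b := hd
          have h5 := Finset.mem_range.mp hb
          exact ⟨d, show d ≤ k by omega, rfl⟩
        · intro b hb
          rw [Function.update_of_ne hb.ne]
          have hor : ∀ d ∈ Finset.range k, d ≠ b → bl A (u d n) (star (u b n)) = 0 := by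
            intro d hd hdb
            rcases lt_or_gt_of_ne hdb with h | h
            · rw [bl_swap_star A _ hA hR, (h3n b (Finset.mem_range.mpr hb)).2.2 d h]; simp
            · exact (h3n d hd).2.2 b h
          have e1 : ∀ x y z : m → ℂ, bl A (x - y) z = bl A x z - bl A y z := by
            intro x y z
            simp [bl, sub_dotProduct]
          rw [e1, bl_sum_left, Finset.sum_eq_single b]
          · rw [bl_smul_left, div_mul_cancel₀ _ (h3n b (Finset.mem_range.mpr hb)).1, sub_self]
          · intro d hd hdb
            rw [bl_smul_left, hor d hd hdb, mul_zero]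
          · intro h; exact absurd (Finset.mem_range.mpr hb) h

end Pool.Agent.MT100.H18
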