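import Pool.Agent.Helper18_MT.Nva
import Pool.Agent.MT100B.Stmts

/-! NVA for MT100B: for the rational structure given by the matrix `diag ((2 π i)⁻ʲ)` and all large `n`
there is a polarised Hodge structure of even weight with the periods of the hypergeometric system. -/

set_option autoImplicit false

namespace Pool.Agent.MT100B.H18

open Matrix Filter Topology Pool.Agent.MT100 Pool.Agent.MT100.H18

/-- NVA -/
def NvaStmt : Prop :=
  ∀ D : Dat, ∃ (P : Matrix (Fin (ro D)) (Fin (ro D)) ℂ) (E : Matrix (Fin (ro D)) (Fin (ro D)) ℚ)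
    (n0 : ℕ), IsUnit P.det ∧ ∀ n : ℕ, n0 ≤ n → ∃ V : ℕ → Submodule ℂ (Fin (ro D) → ℂ),
      PolHodge (2 * D.s) E V ∧ ∀ a : Fin (ro D), (⨆ p ∈ Set.Icc (2 * D.s - a) (2 * D.s), V p) =
        Submodule.span ℂ {y | ∃ b : Fin (ro D), b ≤ a ∧ y = per D P n b}

theorem pp_deg (D : Dat) (i : ℕ) : (pp D i).natDegree ≤ i := by
  unfold pp
  refine (Polynomial.natDegree_prod_le _ _).trans ?_
  refine (Finset.sum_le_card_nsmul _ _ 1 fun j _ => ?_).trans (by simp)
  exact (Polynomial.natDegree_X_add_C _).le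

theorem Jm_zero (D : Dat) (a b : Fin (ro D)) (h : ro D - 1 < (a : ℕ) + b) : Jm D a b = 0 := by
  unfold Jm
  have h1 : J0 (ro D) a b = 0 := by
    unfold J0
    rw [if_neg]
    omega
  have h2 : ∑ i ∈ Finset.range (ro D),
      (-1) ^ i * (pp D i).coeff a * (pp D (ro D - 1 - i)).coeff b = 0 := by
    refine Finset.sum_eq_zero fun i hi => ?_
    have hi' := Finset.mem_range.mp hi
    have ha := a.2
    have hb := b.2
    rcases lt_or_ge i (a : ℕ) with h3 | h3
    · rw [Polynomial.coeff_eq_zero_of_natDegree_lt ((pp_deg D i).trans_lt h3)]; ring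
    · rw [Polynomial.coeff_eq_zero_of_natDegree_lt ((pp_deg D (ro D - 1 - i)).trans_lt
        (show ro D - 1 - i < b by omega))]; ring
  rw [h1, h2]
  simp

theorem r_even (D : Dat) : ((-1 : ℝ)) ^ (ro D - 1) = 1 := by
  apply Even.neg_one_pow
  exact ⟨D.s, by show 2 * D.s + 1 - 1 = _; omega⟩

theorem rel1 (ana : AnaStmt) (D : Dat) (x : ℝ) (hx : (D.lam : ℝ) < x) (a b : Fin (ro D))
    (hab : (a : ℕ) + b < ro D - 1) :
    (W D x * (J0 (ro D)).map (algebraMap ℚ ℝ) * (W D x)ᵀ) a b = 0 := by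
  obtain ⟨_, hu, hp, _⟩ := ana D x hx
  have e0 : (J0 (ro D)).map (fun x => (x : ℝ)) = (J0 (ro D)).map (algebraMap ℚ ℝ) := by
    ext i j; simp
  rw [e0] at hp
  set Jr := (Jm D).map (fun p => (p.map (algebraMap ℚ ℝ)).eval x⁻¹) with hJr
  set J := (J0 (ro D)).map (algebraMap ℚ ℝ) with hJ
  have h1 : (W D x)ᵀ * (Jr * (W D x * J * (W D x)ᵀ)) = (W D x)ᵀ * 1 := by
    calc (W D x)ᵀ * (Jr * (W D x * J * (W D x)ᵀ)) = ((W D x)ᵀ * Jr * W D x) * J * (W D x)ᵀ := by
          simp only [Matrix.mul_assoc]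
      _ = _ := by
          rw [hp, hJ, J0_sq, r_even]; simp
  have hu' : IsUnit (W D x)ᵀ := by
    rw [Matrix.isUnit_iff_isUnit_det, det_transpose]; exact hu
  have h2 : Jr * (W D x * J * (W D x)ᵀ) = 1 := hu'.mul_left_cancel h1
  have hr : ro D = (ro D - 1) + 1 := by have := D.two_le; omega
  exact anti_inv (ro D) (ro D - 1) hr Jr _ h2 (fun a b h => by
    show (((Jm D) a b).map (algebraMap ℚ ℝ)).eval x⁻¹ = 0
    rw [Jm_zero D a b h]; simp) a b hab

theorem per_Pd (D : Dat) (κ : ℝ) (n : ℕ) (a j : Fin (ro D)) :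
    per D (Pd (ro D) κ) n a j = (((κ : ℂ) * Complex.I) ^ (j : ℕ))⁻¹ * ((W D n a j : ℝ) : ℂ) := by
  rw [per, Pd, mulVec_diagonal]

theorem per_rel (ana : AnaStmt) (D : Dat) (κ : ℝ) (hκ : κ ≠ 0) (n : ℕ) (hn : (D.lam : ℝ) < n)
    (a b : Fin (ro D)) (hab : (a : ℕ) + b < ro D - 1) :
    bl ((J0 (ro D)).map (algebraMap ℚ ℂ)) (per D (Pd (ro D) κ) n a) (per D (Pd (ro D) κ) n b) = 0 := by
  have h := rel1 ana D n hn a b hab
  rw [Matrix.mul_assoc, mul_apply] at h
  simp only [J0_mul, transpose_apply] at h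
  unfold bl dotProduct
  simp only [J0_mulVec, per_Pd]
  have hc : ((κ : ℂ) * Complex.I) ≠ 0 := mul_ne_zero (Complex.ofReal_ne_zero.mpr hκ) Complex.I_ne_zero
  have e : ∀ j : Fin (ro D), (((κ : ℂ) * Complex.I) ^ (j : ℕ))⁻¹ * ((W D n a j : ℝ) : ℂ) *
      ((-1) ^ (j : ℕ) * ((((κ : ℂ) * Complex.I) ^ ((Fin.rev j : Fin (ro D)) : ℕ))⁻¹ *
        ((W D n b (Fin.rev j) : ℝ) : ℂ))) =
      (((κ : ℂ) * Complex.I) ^ (ro D - 1))⁻¹ *
        ((W D n a j * ((-1) ^ (j : ℕ) * W D n b (Fin.rev j)) : ℝ) : ℂ) := by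
    intro j
    have h1 : ro D - 1 = (j : ℕ) + (Fin.rev j : Fin (ro D)) := by
      rw [Fin.val_rev]
      have := j.2
      omega
    rw [h1, pow_add, mul_inv]
    push_cast
    ring
  rw [Finset.sum_congr rfl fun j _ => e j, ← Finset.mul_sum, ← Complex.ofReal_sum, h]
  simp

/-! ### The limit -/

theorem hyp_const (D : Dat) (a l : Fin (ro D)) : ev (Hyp D a l) 0 = if (a : ℕ) = l then 1 else 0 := by
  unfold ev
  rw [tsum_eq_single 0]
  · unfold Hyp
    rw [PowerSeries.coeff_mk, Ak, MT100.Ak, Ch]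
    simp only [Finset.range_zero, Finset.prod_empty, Nat.cast_zero, map_zero, zero_add, mul_one,
      PowerSeries.coeff_X_pow, pow_zero]
    by_cases h : (a : ℕ) = l
    · rw [if_pos h, if_pos h.symm]; simp
    · rw [if_neg h, if_neg (fun h' => h h'.symm)]; simp
  · intro k hk
    rw [zero_pow hk, mul_zero]

theorem ev_analytic (eva : EvaStmt) (hgt : HgtStmt) (D : Dat) (a l : Fin (ro D)) :
    AnalyticAt ℝ (ev (Hyp D a l)) 0 := by
  obtain ⟨δ, hδ, h⟩ := eva.1 _ (hgt D a l)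
  have h1 := h (δ / 2) (by rw [abs_of_pos (by positivity)]; linarith)
  exact eva.2.2.2 _ (δ / 2) (by positivity) h1 0 (by rw [abs_zero]; positivity)

/-- the rescaled periods -/
noncomputable def dz (D : Dat) (c : Fin (ro D)) (n : ℕ) : Fin (ro D) → ℂ := fun j =>
  ∑ d : Fin (ro D), (Complex.I * (Real.log n : ℂ)) ^ (c : ℕ) *
    ((Complex.I * (Real.log n : ℂ)) ^ (d : ℕ))⁻¹ * ((ev (Hyp D c d) (n : ℝ)⁻¹ : ℝ) : ℂ) * H18.fl d j

theorem dz_lim (eva : EvaStmt) (hgt : HgtStmt) (D : Dat) (c : Fin (ro D)) :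
    Tendsto (dz D c) atTop (𝓝 fun j => H18.fl c j) := by
  rw [tendsto_pi_nhds]
  intro j
  have h : Tendsto (fun n : ℕ => ∑ d : Fin (ro D), (Complex.I * (Real.log n : ℂ)) ^ (c : ℕ) *
      ((Complex.I * (Real.log n : ℂ)) ^ (d : ℕ))⁻¹ * ((ev (Hyp D c d) (n : ℝ)⁻¹ : ℝ) : ℂ) * H18.fl d j)
      atTop (𝓝 (∑ d : Fin (ro D), (if (c : ℕ) = d then 1 else 0) * H18.fl d j)) := by
    refine tendsto_finsetSum _ fun d _ => ?_
    exact (log_lim _ (ev_analytic eva hgt D c d) c d (hyp_const D c d)).mul_const _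
  have e : ∑ d : Fin (ro D), (if (c : ℕ) = d then 1 else 0) * H18.fl d j = H18.fl c j := by
    rw [Finset.sum_eq_single c]
    · simp
    · intro d _ hd
      rw [if_neg (fun h => hd (Fin.ext h.symm)), zero_mul]
    · intro h'; exact absurd (Finset.mem_univ _) h'
  rw [e] at h
  exact h

theorem per_eq (D : Dat) (κ : ℝ) (hκ : 0 < κ) (c : Fin (ro D)) (n : ℕ) (hn : 0 < Real.log n) :
    Dy (ro D) (Real.log n / κ) (dz D c n) =
      ((Complex.I * (Real.log n : ℂ)) ^ (c : ℕ)) • per D (Pd (ro D) κ) n c := by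
  ext j
  rw [Dy_apply, dz, Pi.smul_apply, per_Pd, smul_eq_mul, W, mul_apply]
  generalize Real.log n = L at *
  push_cast
  rw [Finset.mul_sum, Finset.mul_sum, Finset.mul_sum]
  refine Finset.sum_congr rfl fun d _ => ?_
  simp only [map_apply, en, H18.fl]
  have hL : (L : ℂ) ≠ 0 := Complex.ofReal_ne_zero.mpr hn.ne'
  have hk : (κ : ℂ) ≠ 0 := Complex.ofReal_ne_zero.mpr hκ.ne'
  by_cases h : d ≤ j
  · have h' : (d : ℕ) ≤ j := h
    rw [if_pos h, if_pos h']
    obtain ⟨e, he⟩ := Nat.exists_eq_add_of_le h'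
    have hI := Complex.I_ne_zero
    have e1 : (j : ℕ) - d = e := by omega
    rw [e1, he]
    have e2 : (((((e.factorial : ℚ))⁻¹ • (-L) ^ e : ℝ)) : ℂ) =
        ((e.factorial : ℂ))⁻¹ * (-(L : ℂ)) ^ e := by
      rw [Rat.smul_def]
      push_cast
      ring
    rw [e2]
    have e3 : (-(L : ℂ)) ^ e = Complex.I ^ e * Complex.I ^ e * (L : ℂ) ^ e := by
      rw [← mul_pow, ← mul_pow, Complex.I_mul_I]; ring
    have hf : (e.factorial : ℂ) ≠ 0 := Nat.cast_ne_zero.mpr (Nat.factorial_ne_zero _)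
    rw [e3]
    simp only [mul_pow, div_pow, pow_add]
    field_simp
  · have h' : ¬ (d : ℕ) ≤ j := h
    rw [if_neg h, if_neg h']
    simp

/-- extension of the index -/
noncomputable def dx (D : Dat) (c : ℕ) (n : ℕ) : Fin (ro D) → ℂ :=
  if h : c < ro D then dz D ⟨c, h⟩ n else 0

theorem dx_lim (eva : EvaStmt) (hgt : HgtStmt) (D : Dat) (c : ℕ) (hc : c < ro D) :
    Tendsto (dx D c) atTop (𝓝 fun j => H18.fl c j) := by
  have h : dx D c = dz D ⟨c, hc⟩ := by
    ext n : 1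
    rw [dx, dif_pos hc]
  rw [h]
  exact dz_lim eva hgt D ⟨c, hc⟩

/-- the basis of the flag near the orthogonal one -/
noncomputable def vx (D : Dat) (b : ℕ) (n : ℕ) : Fin (ro D) → ℂ :=
  ∑ c ∈ Finset.range (b + 1), tc (ro D - 1) b c • dx D c n

/-- its limit -/
noncomputable def vl (D : Dat) (b : ℕ) : Fin (ro D) → ℂ := fun j => ul (ro D - 1) b j

theorem vx_lim (eva : EvaStmt) (hgt : HgtStmt) (D : Dat) (b : ℕ) (hb : b < ro D) :
    Tendsto (vx D b) atTop (𝓝 (vl D b)) := by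
  have h : Tendsto (vx D b) atTop
      (𝓝 (∑ c ∈ Finset.range (b + 1), tc (ro D - 1) b c • (fun j : Fin (ro D) => H18.fl c j))) := by
    refine tendsto_finsetSum _ fun c hc => ?_
    have hc' := Finset.mem_range.mp hc
    exact (dx_lim eva hgt D c (by omega)).const_smul _
  have e : (∑ c ∈ Finset.range (b + 1), tc (ro D - 1) b c • (fun j : Fin (ro D) => H18.fl c j)) = vl D b := by
    ext j
    rw [Finset.sum_apply, vl, ul_eq _ _ _ (by omega) (by have := j.2; omega)]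
    rfl
  rwa [e] at h

theorem r_eq (D : Dat) : ro D = ro D - 1 + 1 := by
  show 2 * D.s + 1 = 2 * D.s + 1 - 1 + 1
  omega

theorem vl_star (D : Dat) (b : ℕ) (hb : b < ro D) : star (vl D b) = vl D (ro D - 1 - b) := by
  ext j
  rw [Pi.star_apply, vl, vl]
  exact ul_star _ _ _ (by omega)

theorem vl_orth (D : Dat) (a b : ℕ) (ha : a < ro D) (hb : b < ro D) :
    ((ro D - 1).choose a : ℂ) * bl ((J0 (ro D)).map (algebraMap ℚ ℂ)) (vl D a) (star (vl D b)) =
      if a = b then ((ro D - 1).factorial : ℂ) * (2 * Complex.I) ^ (ro D - 1) *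
        (-1) ^ (ro D - 1 - b) else 0 := by
  rw [vl_star D b hb]
  have h1 := bl_J0 (ro D) (ro D - 1) (r_eq D) (ul (ro D - 1) a) (ul (ro D - 1) (ro D - 1 - b))
  have h2 := prg_ul (ro D - 1) a (ro D - 1 - b) (by omega) (by omega)
  rw [← h1] at h2
  refine h2.trans ?_
  by_cases h : a = b
  · rw [if_pos h, if_pos (by omega)]
  · rw [if_neg h, if_neg (by omega)]

theorem choose_ne (D : Dat) (a : ℕ) (ha : a < ro D) : ((ro D - 1).choose a : ℂ) ≠ 0 :=
  Nat.cast_ne_zero.mpr (Nat.choose_pos (by omega)).ne'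

/-- the norms of the orthogonal basis -/
theorem vl_norm (D : Dat) (a : ℕ) (ha : a < ro D) : ∃ t : ℝ, 0 < t ∧
    (-1) ^ a * Complex.I ^ (ro D - 1) * bl ((J0 (ro D)).map (algebraMap ℚ ℂ)) (vl D a) (star (vl D a)) =
      t := by
  have h := vl_orth D a a ha ha
  rw [if_pos rfl] at h
  have hc := choose_ne D a ha
  have hpos : (0 : ℝ) < ((ro D - 1).choose a : ℝ) := Nat.cast_pos.mpr (Nat.choose_pos (by omega))
  refine ⟨((ro D - 1).factorial : ℝ) * 2 ^ (ro D - 1) / ((ro D - 1).choose a : ℝ),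
    div_pos (mul_pos (Nat.cast_pos.mpr (Nat.factorial_pos _)) (by positivity)) hpos, ?_⟩
  push_cast
  rw [eq_div_iff hc]
  have e1 : (-1 : ℂ) ^ a * (-1) ^ (ro D - 1 - a) = (-1) ^ (ro D - 1) := by
    rw [← pow_add]; congr 1; omega
  calc (-1) ^ a * Complex.I ^ (ro D - 1) *
        bl ((J0 (ro D)).map (algebraMap ℚ ℂ)) (vl D a) (star (vl D a)) * ((ro D - 1).choose a : ℂ)
      = (-1) ^ a * Complex.I ^ (ro D - 1) * (((ro D - 1).choose a : ℂ) *
        bl ((J0 (ro D)).map (algebraMap ℚ ℂ)) (vl D a) (star (vl D a))) := by ring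
    _ = ((ro D - 1).factorial : ℂ) * ((-1) ^ a * (-1) ^ (ro D - 1 - a)) *
        (Complex.I ^ (ro D - 1) * (2 * Complex.I) ^ (ro D - 1)) := by rw [h]; ring
    _ = ((ro D - 1).factorial : ℂ) * ((-1) * (Complex.I * (2 * Complex.I))) ^ (ro D - 1) := by
        rw [e1, mul_pow (-1 : ℂ), mul_pow Complex.I]; ring
    _ = ((ro D - 1).factorial : ℂ) * 2 ^ (ro D - 1) := by
        have e2 : (-1 : ℂ) * (Complex.I * (2 * Complex.I)) = 2 := by
          have := Complex.I_mul_I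
          linear_combination (-2 : ℂ) * this
        rw [e2]

theorem real_of_tendsto (z : ℕ → ℂ) (t : ℝ) (ht : 0 < t) (hz : Tendsto z atTop (𝓝 (t : ℂ)))
    (hr : ∀ n, star (z n) = z n) : ∀ᶠ n in atTop, ∃ s : ℝ, 0 < s ∧ z n = s := by
  have h1 : Tendsto (fun n => (z n).re) atTop (𝓝 t) := by
    have := (Complex.continuous_re.tendsto (t : ℂ)).comp hz
    rw [Complex.ofReal_re] at this
    exact this
  filter_upwards [h1.eventually_const_lt ht] with n hn
  exact ⟨(z n).re, hn, (Complex.conj_eq_iff_re.mp (hr n)).symm⟩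

theorem main_ex (eva : EvaStmt) (hgt : HgtStmt) (ana : AnaStmt) (D : Dat) (κ : ℝ) (hκ : 0 < κ) :
    ∃ n0 : ℕ, ∀ n : ℕ, n0 ≤ n → ∃ V : ℕ → Submodule ℂ (Fin (ro D) → ℂ),
      PolHodge (ro D - 1) (J0 (ro D)) V ∧ ∀ a : Fin (ro D),
        (⨆ p ∈ Set.Icc (ro D - 1 - a) (ro D - 1), V p) =
          Submodule.span ℂ {y | ∃ b : Fin (ro D), b ≤ a ∧ y = per D (Pd (ro D) κ) n b} := by
  set A := (J0 (ro D)).map (algebraMap ℚ ℂ) with hAdef
  have hA : Aᵀ = ((-1 : ℂ) ^ (ro D - 1)) • A := J0_tr (ro D)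
  have hR : ∀ i j, star (A i j) = A i j := by
    intro i j
    rw [hAdef, map_apply]
    simp
  obtain ⟨u, hu⟩ := gs A ⟨_, hA⟩ hR atTop (ro D) (vx D) (vl D) (vx_lim eva hgt D)
    (fun a ha b hb => by
      have h := vl_orth D a b ha (hb.trans ha)
      rw [if_neg hb.ne'] at h
      exact (mul_eq_zero.mp h).resolve_left (choose_ne D a ha))
    (fun a ha h0 => by
      obtain ⟨t, ht, h⟩ := vl_norm D a ha
      rw [h0, mul_zero] at h
      exact ht.ne (by exact_mod_cast h)) (ro D) le_rfl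
  have hpos : ∀ᶠ n in atTop, ∀ a : Fin (ro D), ∃ s : ℝ, 0 < s ∧
      (-1) ^ (a : ℕ) * Complex.I ^ (ro D - 1) * bl A (u a n) (star (u a n)) = s := by
    rw [Filter.eventually_all]
    intro a
    obtain ⟨t, ht, h⟩ := vl_norm D a a.2
    refine real_of_tendsto _ t ht ?_ ?_
    · rw [← h]
      exact (bl_tendsto A atTop _ _ _ _ (hu a a.2).1 (hu a a.2).1).const_mul _
    · intro n
      have h1 := bl_swap_star A _ hA hR (u a n) (u a n)
      rw [star_mul', star_mul', star_pow, star_pow, star_neg, star_one]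
      conv_rhs => rw [h1]
      have e : star Complex.I = -Complex.I := Complex.conj_I
      rw [e, neg_pow Complex.I]
      ring
  have hall : ∀ᶠ n in atTop, ∀ a : Fin (ro D),
      u a n ∈ Submodule.span ℂ ((fun b => vx D b n) '' {b | b ≤ (a : ℕ)}) ∧
        ∀ b < (a : ℕ), bl A (u a n) (star (u b n)) = 0 := by
    rw [Filter.eventually_all]
    intro a
    exact (hu a a.2).2
  have hlog : ∀ᶠ n : ℕ in atTop, 0 < Real.log n :=
    (Real.tendsto_log_atTop.comp tendsto_natCast_atTop_atTop).eventually_gt_atTop 0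
  have hlam : ∀ᶠ n : ℕ in atTop, (D.lam : ℝ) < n :=
    tendsto_natCast_atTop_atTop.eventually_gt_atTop _
  obtain ⟨n0, hn0⟩ := Filter.eventually_atTop.mp (((hpos.and hall).and hlog).and hlam)
  refine ⟨n0, fun n hn => ?_⟩
  obtain ⟨⟨⟨h1, h2⟩, h3⟩, h4⟩ := hn0 n hn
  set y : ℝ := Real.log n / κ with hy
  have hy0 : 0 < y := div_pos h3 hκ
  have hyp : (0 : ℝ) < y ^ (ro D - 1) := by positivity
  have hbl : ∀ a b : Fin (ro D), bl A (Dy (ro D) y (u a n)) (star (Dy (ro D) y (u b n))) =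
      (y : ℂ) ^ (ro D - 1) * bl A (u a n) (star (u b n)) := by
    intro a b
    rw [Dy_star, Dy_bl]
  have hpos' : ∀ a : Fin (ro D), ∃ t : ℝ, 0 < t ∧ (-1) ^ (a : ℕ) * Complex.I ^ (ro D - 1) *
      bl A (Dy (ro D) y (u a n)) (star (Dy (ro D) y (u a n))) = t := by
    intro a
    obtain ⟨s, hs, hs'⟩ := h1 a
    refine ⟨y ^ (ro D - 1) * s, mul_pos hyp hs, ?_⟩
    rw [hbl]
    push_cast
    rw [← hs']
    ring
  have hmem : ∀ a : Fin (ro D), Dy (ro D) y (u a n) ∈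
      Submodule.span ℂ (per D (Pd (ro D) κ) n '' {b | b ≤ a}) := by
    intro a
    have h5 : Submodule.map (Dy (ro D) y)
        (Submodule.span ℂ ((fun b => vx D b n) '' {b | b ≤ (a : ℕ)})) ≤
        Submodule.span ℂ (per D (Pd (ro D) κ) n '' {b | b ≤ a}) := by
      rw [Submodule.map_span_le]
      rintro _ ⟨b, hb, rfl⟩
      have hb' : b ≤ (a : ℕ) := hb
      show Dy (ro D) y (vx D b n) ∈ _
      rw [vx, map_sum]
      refine Submodule.sum_mem _ fun c hc => ?_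
      have hc' := Finset.mem_range.mp hc
      have ha := a.2
      have hcr : c < ro D := by omega
      rw [map_smul, dx, dif_pos hcr, hy, per_eq D κ hκ ⟨c, hcr⟩ n h3]
      refine Submodule.smul_mem _ _ (Submodule.smul_mem _ _ (Submodule.subset_span ?_))
      exact ⟨⟨c, hcr⟩, (by show c ≤ (a : ℕ); omega), rfl⟩
    exact h5 (Submodule.mem_map_of_mem (h2 a).1)
  have hfin := hodge_aux (r_eq D) A hA hR (per D (Pd (ro D) κ) n) (fun a => Dy (ro D) y (u a n))
    (fun a b hab => per_rel ana D κ hκ.ne' n h4 a b hab) hmem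
    (fun a b hab => by rw [hbl, (h2 a).2 b hab, mul_zero])
    (fun a h0 => by
      obtain ⟨t, ht, h⟩ := hpos' a
      rw [h0, mul_zero] at h
      exact ht.ne (by exact_mod_cast h))
    (J0 (ro D)) hAdef (J0_trQ (ro D)) hpos'
  exact ⟨_, hfin.1, hfin.2⟩

/-- NVA -/
theorem nva (hgt : HgtStmt) (ana : AnaStmt) : NvaStmt := by
  intro D
  obtain ⟨n0, h⟩ := main_ex H47.eva hgt ana D (2 * Real.pi) (by positivity)
  exact ⟨Pd (ro D) (2 * Real.pi), J0 (ro D), n0, Pd_det _ _ (by positivity), h⟩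

end Pool.Agent.MT100B.H18
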