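import Pool.Agent.Helper18_MT.NvaB

/-! NVA, part 3: the limit, the symmetric power of the Hodge structure of an elliptic curve. -/

set_option autoImplicit false

namespace Pool.Agent.MT100.H18

open Matrix Polynomial

theorem coeff_lin (n j : ℕ) (a b : ℂ) :
    coeff ((C a + C b * X) ^ n) j = (n.choose j : ℂ) * a ^ (n - j) * b ^ j := by
  have h : (C a + C b * X) ^ n = ∑ k ∈ Finset.range (n + 1),
      C ((n.choose k : ℂ) * a ^ (n - k) * b ^ k) * X ^ k := by
    rw [add_comm, add_pow]
    refine Finset.sum_congr rfl fun k _ => ?_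
    rw [mul_pow, ← C_pow, ← C_pow, ← C_eq_natCast]
    simp only [C_mul]
    ring
  rw [h, finsetSum_coeff]
  simp only [coeff_C_mul, coeff_X_pow]
  rcases le_or_gt j n with hj | hj
  · rw [Finset.sum_eq_single j]
    · simp
    · intro b _ hb
      rw [if_neg (Ne.symm hb), mul_zero]
    · intro h'
      exact absurd (Finset.mem_range.mpr (by omega)) h'
  · rw [Finset.sum_eq_zero, Nat.choose_eq_zero_of_lt hj]
    · simp
    · intro k hk
      have := Finset.mem_range.mp hk
      rw [if_neg (by omega), mul_zero]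

/-- the polynomials of the orthogonal basis -/
noncomputable def pl (w a : ℕ) : ℂ[X] :=
  (C 1 + C Complex.I * X) ^ (w - a) * (C 1 + C (-Complex.I) * X) ^ a

/-- the vectors of the orthogonal basis -/
noncomputable def ul (w a j : ℕ) : ℂ := ((w - j).factorial : ℂ) * coeff (pl w a) j

theorem pl_star (w b : ℕ) (hb : b ≤ w) : (pl w b).map (starRingEnd ℂ) = pl w (w - b) := by
  unfold pl
  rw [Nat.sub_sub_self hb]
  simp only [C_1, C_neg, Polynomial.map_mul, Polynomial.map_pow, Polynomial.map_add,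
    Polynomial.map_neg, Polynomial.map_one, Polynomial.map_C, Polynomial.map_X, Complex.conj_I]
  ring

theorem ul_star (w b j : ℕ) (hb : b ≤ w) : star (ul w b j) = ul w (w - b) j := by
  unfold ul
  rw [← pl_star w b hb, coeff_map, star_mul']
  simp

theorem pl_deg (w b : ℕ) (hb : b ≤ w) : (pl w b).natDegree < w + 1 := by
  unfold pl
  have h1 : ∀ c : ℂ, (C 1 + C c * X : ℂ[X]).natDegree ≤ 1 := by
    intro c
    refine (natDegree_add_le _ _).trans (max_le (by simp) ?_)
    exact (natDegree_C_mul_le _ _).trans natDegree_X_le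
  have h2 := natDegree_mul_le (p := (C 1 + C Complex.I * X : ℂ[X]) ^ (w - b))
    (q := (C 1 + C (-Complex.I) * X) ^ b)
  have h3 := natDegree_pow_le_of_le (w - b) (h1 Complex.I)
  have h4 := natDegree_pow_le_of_le b (h1 (-Complex.I))
  omega

/-- the values of the homogenisation -/
theorem pl_hom (w b : ℕ) (hb : b ≤ w) (α β : ℂ) (hβ : β ≠ 0) :
    ∑ k ∈ Finset.range (w + 1), coeff (pl w b) k * α ^ k * β ^ (w - k) =
      (β + Complex.I * α) ^ (w - b) * (β - Complex.I * α) ^ b := by
  have h := eval_eq_sum_range' (pl_deg w b hb) (α / β)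
  have h1 : β ^ w * eval (α / β) (pl w b) =
      (β + Complex.I * α) ^ (w - b) * (β - Complex.I * α) ^ b := by
    unfold pl
    simp only [eval_mul, eval_pow, eval_add, eval_C, eval_X]
    have e : β ^ w = β ^ (w - b) * β ^ b := by rw [← pow_add]; congr 1; omega
    rw [e]
    have e1 : β * (1 + Complex.I * (α / β)) = β + Complex.I * α := by field_simp
    have e2 : β * (1 + -Complex.I * (α / β)) = β - Complex.I * α := by field_simp; ring
    rw [← e1, ← e2, mul_pow, mul_pow]
    ring
  rw [← h1, h, Finset.mul_sum]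
  refine Finset.sum_congr rfl fun k hk => ?_
  have hk' := Finset.mem_range.mp hk
  have e : β ^ w = β ^ (w - k) * β ^ k := by rw [← pow_add]; congr 1; omega
  rw [e, div_pow]
  field_simp

/-- the pairing -/
noncomputable def prg (w : ℕ) (x y : ℕ → ℂ) : ℂ :=
  ∑ j ∈ Finset.range (w + 1), (-1) ^ j * x j * y (w - j)

theorem gen_coeff (w j : ℕ) (t : ℂ) :
    ∑ a ∈ Finset.range (w + 1), (w.choose a : ℂ) * t ^ a * coeff (pl w a) j =
      (w.choose j : ℂ) * (1 + t) ^ (w - j) * (Complex.I * (1 - t)) ^ j := by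
  rw [← coeff_lin w j (1 + t) (Complex.I * (1 - t))]
  have h : (C (1 + t) + C (Complex.I * (1 - t)) * X : ℂ[X]) =
      C t * (C 1 + C (-Complex.I) * X) + (C 1 + C Complex.I * X) := by
    simp only [C_add, C_mul, C_sub, C_neg, C_1]
    ring
  rw [h, add_pow, finsetSum_coeff]
  refine Finset.sum_congr rfl fun a _ => ?_
  rw [← coeff_C_mul]
  refine congrArg (fun f => coeff f j) ?_
  unfold pl
  rw [mul_pow, C_mul, C_pow, ← C_eq_natCast]
  ring

theorem gen_prg (w b : ℕ) (hb : b ≤ w) (t : ℂ) (ht : t ≠ 1) :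
    ∑ a ∈ Finset.range (w + 1), (w.choose a : ℂ) * t ^ a * prg w (ul w a) (ul w b) =
      (w.factorial : ℂ) * (2 * Complex.I * t) ^ (w - b) * (-(2 * Complex.I)) ^ b := by
  unfold prg
  simp only [Finset.mul_sum]
  rw [Finset.sum_comm]
  have h1 : ∀ j ∈ Finset.range (w + 1), ∑ a ∈ Finset.range (w + 1),
      (w.choose a : ℂ) * t ^ a * ((-1) ^ j * ul w a j * ul w b (w - j)) =
      (w.factorial : ℂ) * (coeff (pl w b) (w - j) * (1 + t) ^ (w - j) *
        (-(Complex.I * (1 - t))) ^ (w - (w - j))) := by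
    intro j hj
    have hj' : j ≤ w := Nat.lt_succ_iff.mp (Finset.mem_range.mp hj)
    have e1 : ∑ a ∈ Finset.range (w + 1),
        (w.choose a : ℂ) * t ^ a * ((-1) ^ j * ul w a j * ul w b (w - j)) =
        ((-1) ^ j * ((w - j).factorial : ℂ) * ul w b (w - j)) *
          ∑ a ∈ Finset.range (w + 1), (w.choose a : ℂ) * t ^ a * coeff (pl w a) j := by
      rw [Finset.mul_sum]
      refine Finset.sum_congr rfl fun a _ => ?_
      rw [ul]; ring
    rw [e1, gen_coeff, ul, Nat.sub_sub_self hj', neg_pow (Complex.I * (1 - t)) j]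
    have e2 : (w.factorial : ℂ) = (w.choose j : ℂ) * (j.factorial : ℂ) * ((w - j).factorial : ℂ) := by
      rw [← Nat.choose_mul_factorial_mul_factorial hj']; push_cast; ring
    rw [e2]
    ring
  rw [Finset.sum_congr rfl h1, ← Finset.mul_sum, mul_assoc]
  refine congrArg _ ?_
  have h2 := pl_hom w b hb (1 + t) (-(Complex.I * (1 - t)))
    (neg_ne_zero.mpr (mul_ne_zero Complex.I_ne_zero (sub_ne_zero.mpr (Ne.symm ht))))
  have e3 : -(Complex.I * (1 - t)) + Complex.I * (1 + t) = 2 * Complex.I * t := by ring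
  have e4 : -(Complex.I * (1 - t)) - Complex.I * (1 + t) = -(2 * Complex.I) := by ring
  rw [e3, e4] at h2
  rw [← h2]
  rw [← Finset.sum_range_reflect (fun k => coeff (pl w b) k * (1 + t) ^ k *
    (-(Complex.I * (1 - t))) ^ (w - k))]
  refine Finset.sum_congr rfl fun j hj => ?_
  have hj' := Finset.mem_range.mp hj
  have e5 : w + 1 - 1 - j = w - j := by omega
  rw [e5]

/-- orthogonality -/
theorem prg_ul (w a b : ℕ) (ha : a ≤ w) (hb : b ≤ w) :
    (w.choose a : ℂ) * prg w (ul w a) (ul w b) =
      if a + b = w then (w.factorial : ℂ) * (2 * Complex.I) ^ w * (-1) ^ b else 0 := by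
  have key : (∑ a ∈ Finset.range (w + 1), C ((w.choose a : ℂ) * prg w (ul w a) (ul w b)) * X ^ a) =
      C ((w.factorial : ℂ) * (2 * Complex.I) ^ w * (-1) ^ b) * X ^ (w - b) := by
    apply eq_of_infinite_eval_eq
    refine Set.Infinite.mono ?_ (Set.finite_singleton (1 : ℂ)).infinite_compl
    intro t ht
    have ht' : t ≠ 1 := ht
    have h := gen_prg w b hb t ht'
    show eval t _ = eval t _
    rw [eval_finsetSum]
    simp only [eval_mul, eval_C, eval_pow, eval_X]
    have e : (2 * Complex.I) ^ w = (2 * Complex.I) ^ (w - b) * (2 * Complex.I) ^ b := by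
      rw [← pow_add]; congr 1; omega
    rw [e]
    have h2 : ∑ a ∈ Finset.range (w + 1), (w.choose a : ℂ) * prg w (ul w a) (ul w b) * t ^ a =
        ∑ a ∈ Finset.range (w + 1), (w.choose a : ℂ) * t ^ a * prg w (ul w a) (ul w b) :=
      Finset.sum_congr rfl fun a _ => by ring
    rw [h2, h, mul_pow (2 * Complex.I), neg_pow]
    ring
  have h := congrArg (fun f => coeff f a) key
  simp only [finsetSum_coeff, coeff_C_mul, coeff_X_pow] at h
  rw [Finset.sum_eq_single a] at h
  · rw [if_pos rfl, mul_one] at h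
    rw [h]
    rcases eq_or_ne (a + b) w with hab | hab
    · rw [if_pos hab, if_pos (by omega), mul_one]
    · rw [if_neg hab, if_neg (by omega), mul_zero]
  · intro c _ hc
    rw [if_neg (Ne.symm hc), mul_zero]
  · intro h'
    exact absurd (Finset.mem_range.mpr (by omega)) h'

/-- the vectors of the limit flag -/
noncomputable def fl (b j : ℕ) : ℂ := if b ≤ j then Complex.I ^ (j - b) / ((j - b).factorial : ℂ) else 0

/-- the coefficients -/
noncomputable def tc (w a b : ℕ) : ℂ :=
  (a.choose b : ℂ) * (-(2 * Complex.I)) ^ b * ((w - b).factorial : ℂ)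

theorem ul_eq (w a j : ℕ) (ha : a ≤ w) (hj : j ≤ w) :
    ul w a j = ∑ b ∈ Finset.range (a + 1), tc w a b * fl b j := by
  have h : pl w a = ∑ b ∈ Finset.range (a + 1),
      C ((a.choose b : ℂ) * (-(2 * Complex.I)) ^ b) *
        ((C 1 + C Complex.I * X) ^ (w - b) * X ^ b) := by
    unfold pl
    have e : (C 1 + C (-Complex.I) * X : ℂ[X]) =
        C (-(2 * Complex.I)) * X + (C 1 + C Complex.I * X) := by
      have e' : (C (-(2 * Complex.I)) : ℂ[X]) = C (-Complex.I) - C Complex.I := by
        rw [← C_sub]; congr 1; ring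
      rw [e']; ring
    rw [e, add_pow (C (-(2 * Complex.I)) * X) (C 1 + C Complex.I * X) a, Finset.mul_sum]
    refine Finset.sum_congr rfl fun b hb => ?_
    have hb' := Finset.mem_range.mp hb
    have e2 : w - b = (w - a) + (a - b) := by omega
    rw [mul_pow, e2, pow_add, C_mul, C_pow, ← C_eq_natCast]
    ring
  rw [ul, h, finsetSum_coeff, Finset.mul_sum]
  refine Finset.sum_congr rfl fun b hb => ?_
  have hb' := Finset.mem_range.mp hb
  rw [coeff_C_mul, coeff_mul_X_pow', tc, fl]
  rcases le_or_gt b j with hbj | hbj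
  · rw [if_pos hbj, if_pos hbj, coeff_lin]
    have e3 : w - b - (j - b) = w - j := by omega
    have e4 := Nat.choose_mul_factorial_mul_factorial (show j - b ≤ w - b by omega)
    rw [e3] at e4
    have e5 : ((w - b).factorial : ℂ) =
        ((w - b).choose (j - b) : ℂ) * ((j - b).factorial : ℂ) * ((w - j).factorial : ℂ) := by
      rw [← e4]; push_cast; ring
    have e6 : ((j - b).factorial : ℂ) ≠ 0 := Nat.cast_ne_zero.mpr (Nat.factorial_ne_zero _)
    rw [e5, one_pow]
    field_simp
  · rw [if_neg (by omega), if_neg (by omega)]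
    ring

theorem tc_ne (w a : ℕ) : tc w a a ≠ 0 := by
  unfold tc
  rw [Nat.choose_self]
  refine mul_ne_zero (mul_ne_zero (by simp) (pow_ne_zero _ ?_))
    (Nat.cast_ne_zero.mpr (Nat.factorial_ne_zero _))
  simp

end Pool.Agent.MT100.H18
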