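import Pool.Agent.Helper18_MT.NvaC

/-! NVA, part 4: the first Riemann relation for the periods, and the limit. -/

set_option autoImplicit false

namespace Pool.Agent.MT100.H18

open Matrix Filter Topology

section J0

variable {F : Type*} [Field F] [CharZero F]

theorem J0_apply (r : ℕ) (a b : Fin r) :
    (J0 r).map (algebraMap ℚ F) a b = if b = Fin.rev a then (-1) ^ (a : ℕ) else 0 := by
  have h : ((a : ℕ) + b + 1 = r) ↔ b = Fin.rev a := by
    rw [Fin.ext_iff, Fin.val_rev]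
    have := a.2
    have := b.2
    omega
  simp only [map_apply, J0]
  by_cases hb : b = Fin.rev a
  · rw [if_pos hb, if_pos (h.mpr hb)]; simp
  · rw [if_neg hb, if_neg (fun h' => hb (h.mp h'))]; simp

theorem J0_mulVec (r : ℕ) (y : Fin r → F) (a : Fin r) :
    ((J0 r).map (algebraMap ℚ F) *ᵥ y) a = (-1) ^ (a : ℕ) * y (Fin.rev a) := by
  show ∑ b, (J0 r).map (algebraMap ℚ F) a b * y b = _
  rw [Finset.sum_eq_single (Fin.rev a)]
  · rw [J0_apply, if_pos rfl]
  · intro b _ hb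
    rw [J0_apply, if_neg hb, zero_mul]
  · intro h; exact absurd (Finset.mem_univ _) h

theorem J0_mul (r : ℕ) (M : Matrix (Fin r) (Fin r) F) (a b : Fin r) :
    ((J0 r).map (algebraMap ℚ F) * M) a b = (-1) ^ (a : ℕ) * M (Fin.rev a) b := by
  have h := J0_mulVec (F := F) r (fun c => M c b) a
  exact h

omit [CharZero F] in
theorem rev_pow (r : ℕ) (a : Fin r) : ((-1 : F)) ^ (Fin.rev a : ℕ) = (-1) ^ (r - 1) * (-1) ^ (a : ℕ) := by
  have h : r - 1 = (Fin.rev a : ℕ) + a := by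
    rw [Fin.val_rev]
    have := a.2
    omega
  rw [h, pow_add, mul_assoc, ← mul_pow]
  simp

theorem J0_sq (r : ℕ) : ((J0 r).map (algebraMap ℚ F)) * ((J0 r).map (algebraMap ℚ F)) =
    ((-1 : F) ^ (r - 1)) • (1 : Matrix (Fin r) (Fin r) F) := by
  ext a b
  rw [J0_mul, J0_apply, Fin.rev_rev, Matrix.smul_apply, Matrix.one_apply]
  by_cases h : b = a
  · rw [if_pos h, if_pos h.symm, rev_pow, smul_eq_mul, mul_one]
    rw [mul_comm, mul_assoc, ← mul_pow]; simp
  · rw [if_neg h, if_neg (fun h' => h h'.symm)]; simp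

theorem J0_tr (r : ℕ) : ((J0 r).map (algebraMap ℚ F))ᵀ =
    ((-1 : F) ^ (r - 1)) • ((J0 r).map (algebraMap ℚ F)) := by
  ext a b
  rw [transpose_apply, Matrix.smul_apply, J0_apply, J0_apply]
  by_cases h : b = Fin.rev a
  · rw [if_pos h, if_pos (by rw [h, Fin.rev_rev]), h, rev_pow, smul_eq_mul]
  · rw [if_neg h, if_neg (fun h' => h (by rw [h', Fin.rev_rev]))]; simp

end J0

theorem J0_trQ (r : ℕ) : (J0 r)ᵀ = ((-1 : ℚ) ^ (r - 1)) • J0 r := by
  have h := J0_tr (F := ℚ) r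
  ext a b
  have h1 := congrFun (congrFun h a) b
  simpa using h1

theorem bl_J0 (r w : ℕ) (hr : r = w + 1) (X Y : ℕ → ℂ) :
    bl ((J0 r).map (algebraMap ℚ ℂ)) (fun i => X i) (fun i => Y i) = prg w X Y := by
  unfold bl dotProduct
  simp only [J0_mulVec]
  subst hr
  rw [prg, ← Fin.sum_univ_eq_sum_range (fun j => (-1) ^ j * X j * Y (w - j)) (w + 1)]
  refine Finset.sum_congr rfl fun a _ => ?_
  have h : (Fin.rev a : ℕ) = w - a := by rw [Fin.val_rev]; omega
  rw [h]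
  ring

/-- the inverse of a matrix which vanishes below the antidiagonal vanishes above it -/
theorem anti_inv {F : Type*} [Field F] (r w : ℕ) (hr : r = w + 1) (M K : Matrix (Fin r) (Fin r) F)
    (h : M * K = 1) (hM : ∀ a b : Fin r, w < (a : ℕ) + b → M a b = 0) (a b : Fin r)
    (hab : (a : ℕ) + b < w) : K a b = 0 := by
  have h1 : M.submatrix id Fin.revPerm * K.submatrix Fin.revPerm id = 1 := by
    rw [submatrix_mul_equiv, h]
    ext i j; rfl
  have h2 : (M.submatrix id (Fin.revPerm : Fin r ≃ Fin r)).BlockTriangular id := by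
    intro i j hij
    show M i (Fin.rev j) = 0
    apply hM
    have h3 : (j : ℕ) < i := hij
    rw [Fin.val_rev]
    omega
  let _ : Invertible (M.submatrix id (Fin.revPerm : Fin r ≃ Fin r)) :=
    invertibleOfRightInverse _ _ h1
  have h4 := blockTriangular_inv_of_blockTriangular h2
  rw [inv_eq_right_inv h1] at h4
  have h5 := h4 (i := Fin.rev a) (j := b) (show b < Fin.rev a by
    show (b : ℕ) < _
    rw [Fin.val_rev]; omega)
  have h6 : K (Fin.rev (Fin.rev a)) b = 0 := h5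
  rwa [Fin.rev_rev] at h6

theorem pp_deg (D : Dat) (i : ℕ) : (pp D i).natDegree ≤ i := by
  unfold pp
  refine (Polynomial.natDegree_prod_le _ _).trans ?_
  refine (Finset.sum_le_card_nsmul _ _ 1 fun j _ => ?_).trans (by simp)
  exact (Polynomial.natDegree_X_add_C _).le

theorem Jm_zero (D : Dat) (a b : Fin D.r) (h : D.r - 1 < (a : ℕ) + b) : Jm D a b = 0 := by
  unfold Jm
  have h1 : J0 D.r a b = 0 := by
    unfold J0
    rw [if_neg]
    omega
  have h2 : ∑ i ∈ Finset.range D.r,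
      (-1) ^ i * (pp D i).coeff a * (pp D (D.r - 1 - i)).coeff b = 0 := by
    refine Finset.sum_eq_zero fun i hi => ?_
    have hi' := Finset.mem_range.mp hi
    have ha := a.2
    have hb := b.2
    rcases lt_or_ge i (a : ℕ) with h3 | h3
    · rw [Polynomial.coeff_eq_zero_of_natDegree_lt ((pp_deg D i).trans_lt h3)]; ring
    · rw [Polynomial.coeff_eq_zero_of_natDegree_lt ((pp_deg D (D.r - 1 - i)).trans_lt
        (show D.r - 1 - i < b by omega))]; ring
  rw [h1, h2]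
  simp

theorem r_even (D : Dat) : ((-1 : ℝ)) ^ (D.r - 1) = -1 := by
  apply Odd.neg_one_pow
  have := D.two_le
  exact ⟨D.s - 1, by show 2 * D.s - 1 = _; omega⟩

theorem rel1 (ana : AnaStmt) (D : Dat) (x : ℝ) (hx : (D.lam : ℝ) < x) (a b : Fin D.r)
    (hab : (a : ℕ) + b < D.r - 1) :
    (W D x * (J0 D.r).map (algebraMap ℚ ℝ) * (W D x)ᵀ) a b = 0 := by
  obtain ⟨_, hu, hp, _⟩ := ana D x hx
  have e0 : (J0 D.r).map (fun x => (x : ℝ)) = (J0 D.r).map (algebraMap ℚ ℝ) := by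
    ext i j; simp
  rw [e0] at hp
  set Jr := (Jm D).map (fun p => (p.map (algebraMap ℚ ℝ)).eval x⁻¹) with hJr
  set J := (J0 D.r).map (algebraMap ℚ ℝ) with hJ
  have h1 : (W D x)ᵀ * (Jr * (W D x * J * (W D x)ᵀ)) = (W D x)ᵀ * (-1) := by
    calc (W D x)ᵀ * (Jr * (W D x * J * (W D x)ᵀ)) = ((W D x)ᵀ * Jr * W D x) * J * (W D x)ᵀ := by
          simp only [Matrix.mul_assoc]
      _ = _ := by
          rw [hp, hJ, J0_sq, r_even]; simp
  have hu' : IsUnit (W D x)ᵀ := by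
    rw [Matrix.isUnit_iff_isUnit_det, det_transpose]; exact hu
  have h2 : Jr * (W D x * J * (W D x)ᵀ) = -1 := hu'.mul_left_cancel h1
  have h3 : Jr * (-(W D x * J * (W D x)ᵀ)) = 1 := by rw [mul_neg, h2, neg_neg]
  have hr : D.r = (D.r - 1) + 1 := by have := D.r_pos; omega
  have h4 := anti_inv D.r (D.r - 1) hr Jr _ h3 (fun a b h => by
    show (((Jm D) a b).map (algebraMap ℚ ℝ)).eval x⁻¹ = 0
    rw [Jm_zero D a b h]; simp) a b hab
  rw [neg_apply] at h4
  exact neg_eq_zero.mp h4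

/-- the diagonal matrix `(κ i)⁻ʲ` -/
noncomputable def Pd (r : ℕ) (κ : ℝ) : Matrix (Fin r) (Fin r) ℂ :=
  Matrix.diagonal fun j => (((κ : ℂ) * Complex.I) ^ (j : ℕ))⁻¹

theorem Pd_det (r : ℕ) (κ : ℝ) (hκ : κ ≠ 0) : IsUnit (Pd r κ).det := by
  rw [Pd, det_diagonal, isUnit_iff_ne_zero, Finset.prod_ne_zero_iff]
  intro j _
  exact inv_ne_zero (pow_ne_zero _ (mul_ne_zero (Complex.ofReal_ne_zero.mpr hκ) Complex.I_ne_zero))

theorem per_Pd (D : Dat) (κ : ℝ) (n : ℕ) (a j : Fin D.r) :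
    per D (Pd D.r κ) n a j = (((κ : ℂ) * Complex.I) ^ (j : ℕ))⁻¹ * ((W D n a j : ℝ) : ℂ) := by
  rw [per, Pd, mulVec_diagonal]

theorem per_rel (ana : AnaStmt) (D : Dat) (κ : ℝ) (hκ : κ ≠ 0) (n : ℕ) (hn : (D.lam : ℝ) < n)
    (a b : Fin D.r) (hab : (a : ℕ) + b < D.r - 1) :
    bl ((J0 D.r).map (algebraMap ℚ ℂ)) (per D (Pd D.r κ) n a) (per D (Pd D.r κ) n b) = 0 := by
  have h := rel1 ana D n hn a b hab
  rw [Matrix.mul_assoc, mul_apply] at h
  simp only [J0_mul, transpose_apply] at h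
  unfold bl dotProduct
  simp only [J0_mulVec, per_Pd]
  have hc : ((κ : ℂ) * Complex.I) ≠ 0 := mul_ne_zero (Complex.ofReal_ne_zero.mpr hκ) Complex.I_ne_zero
  have e : ∀ j : Fin D.r, (((κ : ℂ) * Complex.I) ^ (j : ℕ))⁻¹ * ((W D n a j : ℝ) : ℂ) *
      ((-1) ^ (j : ℕ) * ((((κ : ℂ) * Complex.I) ^ ((Fin.rev j : Fin D.r) : ℕ))⁻¹ *
        ((W D n b (Fin.rev j) : ℝ) : ℂ))) =
      (((κ : ℂ) * Complex.I) ^ (D.r - 1))⁻¹ *
        ((W D n a j * ((-1) ^ (j : ℕ) * W D n b (Fin.rev j)) : ℝ) : ℂ) := by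
    intro j
    have h1 : D.r - 1 = (j : ℕ) + (Fin.rev j : Fin D.r) := by
      rw [Fin.val_rev]
      have := j.2
      omega
    rw [h1, pow_add, mul_inv]
    push_cast
    ring
  rw [Finset.sum_congr rfl fun j _ => e j, ← Finset.mul_sum, ← Complex.ofReal_sum, h]
  simp

/-! ### The limit -/

theorem hyp_const (D : Dat) (a l : Fin D.r) : ev (Hyp D a l) 0 = if (a : ℕ) = l then 1 else 0 := by
  unfold ev
  rw [tsum_eq_single 0]
  · unfold Hyp
    rw [PowerSeries.coeff_mk, Ak]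
    simp only [Finset.range_zero, Finset.prod_empty, Nat.cast_zero, map_zero, zero_add, mul_one,
      PowerSeries.coeff_X_pow, pow_zero]
    by_cases h : (a : ℕ) = l
    · rw [if_pos h, if_pos h.symm]; simp
    · rw [if_neg h, if_neg (fun h' => h h'.symm)]; simp
  · intro k hk
    rw [zero_pow hk, mul_zero]

theorem ev_analytic (eva : EvaStmt) (hgt : HgtStmt) (D : Dat) (a l : Fin D.r) :
    AnalyticAt ℝ (ev (Hyp D a l)) 0 := by
  obtain ⟨δ, hδ, h⟩ := eva.1 _ (hgt D a l)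
  have h1 := h (δ / 2) (by rw [abs_of_pos (by positivity)]; linarith)
  exact eva.2.2.2 _ (δ / 2) (by positivity) h1 0 (by rw [abs_zero]; positivity)

theorem log_lim (f : ℝ → ℝ) (hf : AnalyticAt ℝ f 0) (c d : ℕ)
    (h0 : f 0 = if c = d then 1 else 0) :
    Tendsto (fun n : ℕ => (Complex.I * (Real.log n : ℂ)) ^ c *
      ((Complex.I * (Real.log n : ℂ)) ^ d)⁻¹ * ((f (n : ℝ)⁻¹ : ℝ) : ℂ)) atTop
      (𝓝 (if c = d then 1 else 0)) := by
  have hL : Tendsto (fun n : ℕ => Real.log n) atTop atTop :=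
    Real.tendsto_log_atTop.comp tendsto_natCast_atTop_atTop
  have hinv : Tendsto (fun n : ℕ => (n : ℝ)⁻¹) atTop (𝓝 0) :=
    tendsto_inv_atTop_zero.comp tendsto_natCast_atTop_atTop
  have hO : (fun n : ℕ => f (n : ℝ)⁻¹ - f 0) =O[atTop] fun n : ℕ => (n : ℝ)⁻¹ := by
    have h1 := (hf.differentiableAt.isBigO_sub).comp_tendsto hinv
    simpa [Function.comp_def] using h1
  have hlit : (fun n : ℕ => Real.log n ^ c) =o[atTop] fun n : ℕ => (n : ℝ) :=
    (Real.isLittleO_pow_log_id_atTop (n := c)).comp_tendsto tendsto_natCast_atTop_atTop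
  have hz : Tendsto (fun n : ℕ => Real.log n ^ c * (f (n : ℝ)⁻¹ - f 0)) atTop (𝓝 0) := by
    have h2 := hlit.mul_isBigO hO
    have h3 : (fun n : ℕ => (n : ℝ) * (n : ℝ)⁻¹) =O[atTop] fun _ : ℕ => (1 : ℝ) := by
      refine Asymptotics.IsBigO.of_bound 1 ?_
      filter_upwards [eventually_gt_atTop 0] with n hn
      rw [mul_inv_cancel₀ (by positivity)]; simp
    exact (Asymptotics.isLittleO_one_iff ℝ).mp (h2.trans_isBigO h3)
  have hmain : Tendsto (fun n : ℕ => (Complex.I * (Real.log n : ℂ)) ^ c *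
      ((Complex.I * (Real.log n : ℂ)) ^ d)⁻¹ * (((f (n : ℝ)⁻¹ - f 0 : ℝ)) : ℂ)) atTop (𝓝 0) := by
    refine squeeze_zero_norm' ?_ (by simpa using hz.norm)
    filter_upwards [hL.eventually_ge_atTop 1] with n hn
    rw [norm_mul, norm_mul, norm_inv, norm_pow, norm_pow, norm_mul, Complex.norm_I, one_mul,
      Complex.norm_real, Complex.norm_real, Real.norm_eq_abs, Real.norm_eq_abs]
    have h1 : |Real.log n| = Real.log n := abs_of_nonneg (by linarith)
    rw [h1]
    have h2 : (Real.log n ^ d)⁻¹ ≤ 1 := inv_le_one_of_one_le₀ (one_le_pow₀ hn)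
    have h3 : 0 ≤ Real.log n ^ c := by positivity
    have h4 : Real.log n ^ c * (Real.log n ^ d)⁻¹ ≤ Real.log n ^ c := by
      nlinarith
    exact mul_le_mul_of_nonneg_right h4 (abs_nonneg _)
  have hsec : Tendsto (fun n : ℕ => (Complex.I * (Real.log n : ℂ)) ^ c *
      ((Complex.I * (Real.log n : ℂ)) ^ d)⁻¹ * ((f 0 : ℝ) : ℂ)) atTop
      (𝓝 (if c = d then 1 else 0)) := by
    rw [h0]
    by_cases hcd : c = d
    · rw [if_pos hcd, if_pos hcd]
      refine Tendsto.congr' ?_ tendsto_const_nhds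
      filter_upwards [hL.eventually_ge_atTop 1] with n hn
      have hne : (Complex.I * (Real.log n : ℂ)) ^ c ≠ 0 :=
        pow_ne_zero _ (mul_ne_zero Complex.I_ne_zero (Complex.ofReal_ne_zero.mpr (by linarith)))
      rw [← hcd, mul_inv_cancel₀ hne]; simp
    · rw [if_neg hcd, if_neg hcd]; simp
  have := hmain.add hsec
  rw [zero_add] at this
  refine this.congr fun n => ?_
  push_cast
  ring

end Pool.Agent.MT100.H18
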